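import Mathlib

/-!
# Equitable 2-choosability of disjoint unions of stars: definitions
-/

set_option autoImplicit false

namespace Pool.Agent.Q206.EC

open Finset

/-- The disjoint union of the stars `K_{1,m}`, `m ∈ l`: the star `i` has the centre `⟨i, none⟩` and
the leaves `⟨i, some j⟩`, `j < m`. -/
def Stars (l : List ℕ) : SimpleGraph ((i : Fin l.length) × Option (Fin (l.get i))) where
  Adj u v := u.1 = v.1 ∧ u.2.isSome ≠ v.2.isSome
  symm := ⟨fun _ _ h => ⟨h.1.symm, h.2.symm⟩⟩
  loopless := ⟨fun _ h => h.2 rfl⟩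

/-- `G` is equitably `k`-choosable: for all lists of `k` colours there is a proper colouring from
the lists which uses every colour at most `⌈|V| / k⌉` times. -/
def EquitablyChoosable {V : Type} [Fintype V] (G : SimpleGraph V) (k : ℕ) : Prop :=
  ∀ L : V → Finset ℕ, (∀ v, (L v).card = k) → ∃ f : V → ℕ, (∀ v, f v ∈ L v) ∧
    (∀ u v, G.Adj u v → f u ≠ f v) ∧ ∀ c, Nat.card {v // f v = c} ≤ ⌈(Fintype.card V : ℚ) / k⌉₊

section Game

variable {ι : Type} [Fintype ι] [DecidableEq ι]

/-- the number of leaves of the star `i` with the list `{a, b}` -/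
def nl (m : ι → ℕ) (Lf : (i : ι) → Fin (m i) → Finset ℕ) (i : ι) (a b : ℕ) : ℕ :=
  (univ.filter (fun v : Fin (m i) => Lf i v = {a, b})).card

/-- the number of vertices of the star `i` which must have the colour `c` if the centre has the
colour `g` -/
def fc (m : ι → ℕ) (Lf : (i : ι) → Fin (m i) → Finset ℕ) (i : ι) (g c : ℕ) : ℕ :=
  if g = c then 1 else nl m Lf i g c

/-- the number of vertices which must have the colour `c` if the centres have the colours `g` -/
def forced (m : ι → ℕ) (Lf : (i : ι) → Fin (m i) → Finset ℕ) (g : ι → ℕ) (c : ℕ) : ℕ :=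
  ∑ i, fc m Lf i (g i) c

/-- the centres have colours from their lists -/
def Val (x y : ι → ℕ) (g : ι → ℕ) : Prop := ∀ i, g i = x i ∨ g i = y i

/-- the numerical assumptions: `K` is half of the number of vertices -/
structure Big (m : ι → ℕ) (K lo hi : ℕ) : Prop where
  total : ∑ i, (m i + 1) = 2 * K
  low : ∀ i, lo ≤ m i + 1
  high : ∀ i, m i + 1 ≤ hi
  ratio : hi + 1 ≤ 2 * lo
  big : 5 * hi + Fintype.card ι ≤ K

/-- the situation at a colouring of the centres with minimal overload: the colour `c` is
overloaded, almost all vertices are forced to have the colour `c` or `d`, and the stars whose centre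
does not have the list `{c, d}` have (almost) no vertices forced to have the colour `c` -/
structure Crit (m : ι → ℕ) (Lf : (i : ι) → Fin (m i) → Finset ℕ) (x y : ι → ℕ) (K hi : ℕ)
    (g : ι → ℕ) (c d : ℕ) : Prop where
  val : Val x y g
  ne : c ≠ d
  ovl : K + 1 ≤ forced m Lf g c
  tight : 2 * K + 2 ≤ forced m Lf g c + forced m Lf g d + hi
  light : ∀ i, ({x i, y i} : Finset ℕ) ≠ {c, d} →
    2 * fc m Lf i (g i) c + fc m Lf i (g i) d ≤ m i + 2

end Game

end Pool.Agent.Q206.EC
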