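import Pool.Agent.Q206.EC.Stm

/-!
# EC-EQ: the converse direction
-/

set_option autoImplicit false

namespace Pool.Agent.Q206.EC

open Finset

theorem card_V (l : List ℕ) :
    Fintype.card ((i : Fin l.length) × Option (Fin (l.get i))) = ∑ i, (l.get i + 1) := by
  rw [Fintype.card_sigma]
  refine Finset.sum_congr rfl fun i _ => ?_
  rw [Fintype.card_option, Fintype.card_fin]

theorem card_col (l : List ℕ) (f : ((i : Fin l.length) × Option (Fin (l.get i))) → ℕ) (c : ℕ) :
    Nat.card {v // f v = c} = ∑ i, ((if f ⟨i, none⟩ = c then 1 else 0) +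
      ∑ j : Fin (l.get i), (if f ⟨i, some j⟩ = c then 1 else 0)) := by
  rw [Nat.card_eq_fintype_card, Fintype.card_subtype, Finset.card_filter]
  rw [Fintype.sum_sigma]
  refine Finset.sum_congr rfl fun i _ => ?_
  rw [Fintype.sum_option]

theorem ceil_two (K : ℕ) : ⌈((2 * K : ℕ) : ℚ) / ((2 : ℕ) : ℚ)⌉₊ = K := by
  have : ((2 * K : ℕ) : ℚ) / ((2 : ℕ) : ℚ) = (K : ℚ) := by push_cast; ring
  rw [this, Nat.ceil_natCast]

theorem s_eq : S_EQ := by
  intro l K hK hEC
  obtain ⟨f, hf, hp, hc⟩ := hEC (fun _ => {0, 1}) (fun _ => by simp)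
  rw [card_V, hK, ceil_two] at hc
  have h01 : ∀ v, f v = 0 ∨ f v = 1 := fun v => by simpa using hf v
  have hadj : ∀ i j, f ⟨i, none⟩ ≠ f ⟨i, some j⟩ := fun i j => hp _ _ ⟨rfl, by simp⟩
  refine ⟨univ.filter (fun i => f ⟨i, none⟩ = 1), ?_⟩
  have h1 := hc 1
  have h0 := hc 0
  rw [card_col] at h1 h0
  have e1 : ∀ i, ((if f ⟨i, none⟩ = 1 then 1 else 0) +
      ∑ j : Fin (l.get i), (if f ⟨i, some j⟩ = 1 then 1 else 0)) =
      if f ⟨i, none⟩ = 1 then 1 else l.get i := by
    intro i
    by_cases h : f ⟨i, none⟩ = 1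
    · have : ∀ j : Fin (l.get i), (if f ⟨i, some j⟩ = 1 then 1 else 0) = 0 := by
        intro j
        have := hadj i j
        rw [if_neg]; rw [h] at this; exact fun h' => this h'.symm
      rw [if_pos h, if_pos h, Finset.sum_congr rfl fun j _ => this j]; simp
    · have : ∀ j : Fin (l.get i), (if f ⟨i, some j⟩ = 1 then 1 else 0) = 1 := by
        intro j
        have h2 := hadj i j
        have h3 := h01 ⟨i, some j⟩
        have h4 := h01 ⟨i, none⟩
        rw [if_pos]; omega
      rw [if_neg h, if_neg h, Finset.sum_congr rfl fun j _ => this j]; simp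
  have e0 : ∀ i, ((if f ⟨i, none⟩ = 0 then 1 else 0) +
      ∑ j : Fin (l.get i), (if f ⟨i, some j⟩ = 0 then 1 else 0)) =
      if f ⟨i, none⟩ = 1 then l.get i else 1 := by
    intro i
    by_cases h : f ⟨i, none⟩ = 1
    · have : ∀ j : Fin (l.get i), (if f ⟨i, some j⟩ = 0 then 1 else 0) = 1 := by
        intro j
        have h2 := hadj i j
        have h3 := h01 ⟨i, some j⟩
        rw [if_pos]; omega
      have hn : ¬ f ⟨i, none⟩ = 0 := by omega
      rw [if_pos h, if_neg hn, Finset.sum_congr rfl fun j _ => this j]; simp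
    · have : ∀ j : Fin (l.get i), (if f ⟨i, some j⟩ = 0 then 1 else 0) = 0 := by
        intro j
        have h2 := hadj i j
        have h4 := h01 ⟨i, none⟩
        rw [if_neg]; omega
      have h4 := h01 ⟨i, none⟩
      have hn : f ⟨i, none⟩ = 0 := by omega
      rw [if_neg h, if_pos hn, Finset.sum_congr rfl fun j _ => this j]; simp
  rw [Finset.sum_congr rfl fun i _ => e1 i] at h1
  rw [Finset.sum_congr rfl fun i _ => e0 i] at h0
  have hsum : ∑ i : Fin l.length, (if f ⟨i, none⟩ = 1 then 1 else l.get i) +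
      ∑ i : Fin l.length, (if f ⟨i, none⟩ = 1 then l.get i else 1) = 2 * K := by
    rw [← Finset.sum_add_distrib, ← hK]
    refine Finset.sum_congr rfl fun i _ => ?_
    split_ifs <;> omega
  have heq : ∑ i : Fin l.length, (if f ⟨i, none⟩ = 1 then 1 else l.get i) =
      ∑ i : Fin l.length, (if f ⟨i, none⟩ = 1 then l.get i else 1) := by omega
  have hz : (∑ i : Fin l.length, (if f ⟨i, none⟩ = 1 then (1 : ℤ) else (l.get i : ℤ))) =
      ∑ i : Fin l.length, (if f ⟨i, none⟩ = 1 then (l.get i : ℤ) else 1) := by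
    have := congrArg (fun n : ℕ => (n : ℤ)) heq
    push_cast at this
    exact this
  have hcompl : (univ.filter (fun i : Fin l.length => f ⟨i, none⟩ = 1))ᶜ =
      univ.filter (fun i : Fin l.length => ¬ f ⟨i, none⟩ = 1) := by
    ext; simp
  rw [hcompl]
  rw [Finset.sum_ite, Finset.sum_ite] at hz
  simp only [Finset.sum_sub_distrib]
  linarith

end Pool.Agent.Q206.EC
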