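import Pool.Agent.Q206.EC.JMany

/-!
# EC-FEW: at most three stars whose centre does not have the list `{c, d}`
-/

set_option autoImplicit false

namespace Pool.Agent.Q206.EC

open Finset in
theorem t_FEW : S_FEW := by
  intro hLOC hTH ι _ _ m Lf x y K lo hi hL hxy hB g c d hC T R hT hT3 hRT hδ
  have hL1 := fun i => hLOC ι m Lf hL i
  have hcd := hC.ne
  have htot := hB.total
  have hbig := hB.big
  have hsumT : ∑ i ∈ T, (m i + 1) ≤ 3 * hi := by
    calc ∑ i ∈ T, (m i + 1) ≤ ∑ i ∈ T, hi := Finset.sum_le_sum fun i _ => hB.high i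
      _ = T.card * hi := by rw [Finset.sum_const, smul_eq_mul]
      _ ≤ 3 * hi := Nat.mul_le_mul_right _ hT3
  have hgT : ∀ i, i ∉ T → ({x i, y i} : Finset ℕ) = {c, d} := by
    intro i h
    by_contra h2
    exact h ((hT i).2 h2)
  have hgcd : ∀ i, i ∉ T → (x i = c ∧ y i = d) ∨ (x i = d ∧ y i = c) := by
    intro i h
    have h1 := hgT i h
    have h2 : x i ∈ ({c, d} : Finset ℕ) := by rw [← h1]; simp
    have h3 : y i ∈ ({c, d} : Finset ℕ) := by rw [← h1]; simp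
    rw [Finset.mem_insert, Finset.mem_singleton] at h2 h3
    have h4 := hxy i
    rcases h2 with h2 | h2 <;> rcases h3 with h3 | h3
    · exact absurd (h2.trans h3.symm) h4
    · exact Or.inl ⟨h2, h3⟩
    · exact Or.inr ⟨h2, h3⟩
    · exact absurd (h2.trans h3.symm) h4
  set A : ℕ := ∑ i ∈ T, fc m Lf i (Many.ch m Lf x y c d i) c with hA
  set B : ℕ := ∑ i ∈ T, fc m Lf i (Many.ch m Lf x y c d i) d with hB'
  have hAB : 2 * (A + B) ≤ ∑ i ∈ T, (m i + 1) := by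
    rw [hA, hB', ← Finset.sum_add_distrib, Finset.mul_sum]
    apply Finset.sum_le_sum
    intro i hi'
    exact Many.ch_le m Lf x y c d i
      ((hL1 i).2.2.2.1 (x i) (y i) c d (hxy i) hcd ((hT i).1 hi'))
  -- the colouring for a set `D` of stars
  have key : ∀ D : Finset ι, D ⊆ Tᶜ →
      2 * |∑ i ∈ D, ((m i : ℤ) - 1) - ∑ i ∈ Tᶜ \ D, ((m i : ℤ) - 1)| ≤ ∑ i ∈ T, ((m i : ℤ) + 1) →
      ((A ≤ B ∧ 0 ≤ ∑ i ∈ D, ((m i : ℤ) - 1) - ∑ i ∈ Tᶜ \ D, ((m i : ℤ) - 1)) ∨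
        (B < A ∧ ∑ i ∈ D, ((m i : ℤ) - 1) - ∑ i ∈ Tᶜ \ D, ((m i : ℤ) - 1) ≤ 0)) →
      ∃ h, Val x y h ∧ ∀ e, forced m Lf h e ≤ K := by
    intro D hD h1 h2
    have hDT : ∀ i ∈ D, i ∉ T := fun i hi' => Finset.mem_compl.1 (hD hi')
    obtain ⟨h, hh⟩ : ∃ h : ι → ℕ, h = fun i => if i ∈ T then Many.ch m Lf x y c d i else
      if i ∈ D then d else c := ⟨_, rfl⟩
    have hh1 : ∀ i ∈ T, h i = Many.ch m Lf x y c d i := fun i hi' => by
      rw [hh]
      exact if_pos hi'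
    have hh2 : ∀ i ∈ D, h i = d := fun i hi' => by
      rw [hh]
      dsimp only
      rw [if_neg (hDT i hi'), if_pos hi']
    have hh3 : ∀ i ∈ Tᶜ \ D, h i = c := fun i hi' => by
      rw [Finset.mem_sdiff, Finset.mem_compl] at hi'
      rw [hh]
      dsimp only
      rw [if_neg hi'.1, if_neg hi'.2]
    have hval : Val x y h := by
      intro i
      by_cases h3 : i ∈ T
      · rw [hh1 i h3]
        exact Many.ch_mem m Lf x y c d i
      · by_cases h4 : i ∈ D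
        · rw [hh2 i h4]
          rcases hgcd i h3 with h5 | h5
          · exact Or.inr h5.2.symm
          · exact Or.inl h5.1.symm
        · rw [hh3 i (Finset.mem_sdiff.2 ⟨Finset.mem_compl.2 h3, h4⟩)]
          rcases hgcd i h3 with h5 | h5
          · exact Or.inl h5.1.symm
          · exact Or.inr h5.2.symm
    have hsplit : ∀ f : ι → ℕ, ∑ i, f i = ∑ i ∈ T, f i + (∑ i ∈ D, f i + ∑ i ∈ Tᶜ \ D, f i) := by
      intro f
      rw [← Finset.sum_add_sum_compl T f]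
      congr 1
      rw [add_comm, Finset.sum_sdiff hD]
    have hc1 : forced m Lf h c ≤ A + (∑ i ∈ D, m i + ∑ i ∈ Tᶜ \ D, 1) := by
      unfold forced
      rw [hsplit]
      refine add_le_add (le_of_eq (Finset.sum_congr rfl fun i hi' => by rw [hh1 i hi']))
        (add_le_add (Finset.sum_le_sum fun i hi' => ?_) (Finset.sum_le_sum fun i hi' => ?_))
      · rw [hh2 i hi']
        have := (hL1 i).2.2.2.2.2.2 c d hcd
        omega
      · rw [hh3 i hi']
        have := (hL1 i).2.2.2.2.2.2 c d hcd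
        omega
    have hd1 : forced m Lf h d ≤ B + (∑ i ∈ D, 1 + ∑ i ∈ Tᶜ \ D, m i) := by
      unfold forced
      rw [hsplit]
      refine add_le_add (le_of_eq (Finset.sum_congr rfl fun i hi' => by rw [hh1 i hi']))
        (add_le_add (Finset.sum_le_sum fun i hi' => ?_) (Finset.sum_le_sum fun i hi' => ?_))
      · rw [hh2 i hi']
        have := (hL1 i).2.2.2.2.2.2 c d hcd
        omega
      · rw [hh3 i hi']
        have := (hL1 i).2.2.2.2.2.2 c d hcd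
        omega
    have htot' := hsplit fun i => m i + 1
    rw [htot, Finset.sum_add_distrib (s := D), Finset.sum_add_distrib (s := Tᶜ \ D)] at htot'
    rw [Finset.sum_sub_distrib, Finset.sum_sub_distrib] at h1 h2
    have hcast1 : ∑ i ∈ T, ((m i : ℤ) + 1) = ((∑ i ∈ T, (m i + 1) : ℕ) : ℤ) := by
      push_cast
      rfl
    have hcast2 : ∑ i ∈ D, (m i : ℤ) = ((∑ i ∈ D, m i : ℕ) : ℤ) := by
      push_cast
      rfl
    have hcast3 : ∑ i ∈ Tᶜ \ D, (m i : ℤ) = ((∑ i ∈ Tᶜ \ D, m i : ℕ) : ℤ) := by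
      push_cast
      rfl
    have hcast4 : ∑ i ∈ D, (1 : ℤ) = ((∑ i ∈ D, 1 : ℕ) : ℤ) := by
      push_cast
      rfl
    have hcast5 : ∑ i ∈ Tᶜ \ D, (1 : ℤ) = ((∑ i ∈ Tᶜ \ D, 1 : ℕ) : ℤ) := by
      push_cast
      rfl
    rw [hcast2, hcast3, hcast4, hcast5] at h1 h2
    rw [hcast1] at h1
    have habs := abs_le.1 (le_refl |((∑ i ∈ D, m i : ℕ) : ℤ) - ((∑ i ∈ D, 1 : ℕ) : ℤ) -
      (((∑ i ∈ Tᶜ \ D, m i : ℕ) : ℤ) - ((∑ i ∈ Tᶜ \ D, 1 : ℕ) : ℤ))|)
    refine ⟨h, hval, fun e => ?_⟩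
    by_cases hec : e = c
    · rw [hec]
      omega
    · by_cases hed : e = d
      · rw [hed]
        omega
      · have h3 := hTH hLOC ι m Lf x y K lo hi hL hxy hB g c d hC T h hval
          (fun i h4 h5 => absurd ((hT i).2 h4) h5) e hec hed
        omega
  have hR : R ⊆ Tᶜ := fun i hi' => by
    rw [Finset.mem_compl]
    exact Finset.disjoint_left.1 hRT hi'
  have hR2 : Tᶜ \ (Tᶜ \ R) = R := by
    rw [Finset.sdiff_sdiff_eq_self hR]
  by_cases hcase : (A ≤ B ∧ 0 ≤ ∑ i ∈ R, ((m i : ℤ) - 1) - ∑ i ∈ Tᶜ \ R, ((m i : ℤ) - 1)) ∨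
        (B < A ∧ ∑ i ∈ R, ((m i : ℤ) - 1) - ∑ i ∈ Tᶜ \ R, ((m i : ℤ) - 1) ≤ 0)
  · exact key R hR hδ hcase
  · apply key (Tᶜ \ R) Finset.sdiff_subset
    · rw [hR2, abs_sub_comm]
      exact hδ
    · rw [hR2]
      omega

end Pool.Agent.Q206.EC
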