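import Pool.Agent.Q206.EC.Stm

/-!
# EC-MANY: at least four stars whose centre does not have the list `{c, d}`
-/

set_option autoImplicit false

namespace Pool.Agent.Q206.EC

namespace Many

open Finset

variable {ι : Type}

/-- the colour of the centre with the smaller number of vertices forced to be coloured `c` or `d` -/
def ch (m : ι → ℕ) (Lf : (i : ι) → Fin (m i) → Finset ℕ) (x y : ι → ℕ) (c d : ℕ) (i : ι) : ℕ :=
  if fc m Lf i (x i) c + fc m Lf i (x i) d ≤ fc m Lf i (y i) c + fc m Lf i (y i) d then x i else y i

theorem ch_mem (m : ι → ℕ) (Lf : (i : ι) → Fin (m i) → Finset ℕ) (x y : ι → ℕ) (c d : ℕ) (i : ι) :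
    ch m Lf x y c d i = x i ∨ ch m Lf x y c d i = y i := by
  unfold ch
  split_ifs
  · exact Or.inl rfl
  · exact Or.inr rfl

theorem ch_le (m : ι → ℕ) (Lf : (i : ι) → Fin (m i) → Finset ℕ) (x y : ι → ℕ) (c d : ℕ) (i : ι)
    (h : fc m Lf i (x i) c + fc m Lf i (x i) d + (fc m Lf i (y i) c + fc m Lf i (y i) d) ≤ m i + 1) :
    2 * (fc m Lf i (ch m Lf x y c d i) c + fc m Lf i (ch m Lf x y c d i) d) ≤ m i + 1 := by
  unfold ch
  split_ifs with h1
  · omega
  · omega

/-- the colouring of the centres -/
def hR [DecidableEq ι] (m : ι → ℕ) (Lf : (i : ι) → Fin (m i) → Finset ℕ) (x y : ι → ℕ) (c d : ℕ) (g : ι → ℕ)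
    (T' R : Finset ι) (i : ι) : ℕ :=
  if i ∈ T' then ch m Lf x y c d i else if i ∈ R then c else g i

end Many

open Finset in
theorem t_MANY : S_MANY := by
  intro hLOC hTH ι _ _ m Lf x y K lo hi hL hxy hB g c d hC T hT hT4
  obtain ⟨T', hT'T, hT'4⟩ := Finset.exists_subset_card_eq hT4
  have hL1 := fun i => hLOC ι m Lf hL i
  have hcd := hC.ne
  -- the sums
  have hsumT' : ∑ i ∈ T', (m i + 1) ≤ 4 * hi := by
    calc ∑ i ∈ T', (m i + 1) ≤ ∑ i ∈ T', hi := Finset.sum_le_sum fun i _ => hB.high i
      _ = 4 * hi := by rw [Finset.sum_const, hT'4, smul_eq_mul]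
  have hsumlo : 4 * lo ≤ ∑ i ∈ T', (m i + 1) := by
    calc 4 * lo = ∑ i ∈ T', lo := by rw [Finset.sum_const, hT'4, smul_eq_mul]
      _ ≤ ∑ i ∈ T', (m i + 1) := Finset.sum_le_sum fun i _ => hB.low i
  have htot := hB.total
  have hratio := hB.ratio
  have hbig := hB.big
  have hovl := hC.ovl
  have htight := hC.tight
  -- all vertices
  set e : ι → ℕ := fun i => m i + 1 - (fc m Lf i (g i) c + fc m Lf i (g i) d) with he
  have he1 : ∀ i, fc m Lf i (g i) c + fc m Lf i (g i) d + e i = m i + 1 := by
    intro i
    have := (hL1 i).2.1 (g i) c d hcd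
    rw [he]
    dsimp only
    omega
  have hesum : forced m Lf g c + forced m Lf g d + ∑ i, e i = 2 * K := by
    unfold forced
    rw [← htot, ← Finset.sum_add_distrib, ← Finset.sum_add_distrib]
    exact Finset.sum_congr rfl fun i _ => he1 i
  have helight : ∀ i ∈ T, fc m Lf i (g i) c ≤ e i + 1 := by
    intro i hi'
    have h1 := hC.light i ((hT i).1 hi')
    have h2 := he1 i
    omega
  have heT : ∀ S : Finset ι, ∑ i ∈ S, e i ≤ ∑ i, e i := fun S =>
    Finset.sum_le_sum_of_subset (Finset.subset_univ S)
  set Sd : Finset ι := univ.filter fun i => i ∉ T ∧ g i = d with hSd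
  have hgT : ∀ i, i ∉ T → ({x i, y i} : Finset ℕ) = {c, d} := by
    intro i h
    by_contra h2
    exact h ((hT i).2 h2)
  have hgcd : ∀ i, i ∉ T → (x i = c ∧ y i = d) ∨ (x i = d ∧ y i = c) := by
    intro i h
    have h1 := hgT i h
    have h2 : x i ∈ ({c, d} : Finset ℕ) := by rw [← h1]; simp
    have h3 : y i ∈ ({c, d} : Finset ℕ) := by rw [← h1]; simp
    rw [Finset.mem_insert, Finset.mem_singleton] at h2 h3
    have h4 := hxy i
    rcases h2 with h2 | h2 <;> rcases h3 with h3 | h3
    · exact absurd (h2.trans h3.symm) h4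
    · exact Or.inl ⟨h2, h3⟩
    · exact Or.inr ⟨h2, h3⟩
    · exact absurd (h2.trans h3.symm) h4
  -- properties of the colourings
  have hval : ∀ R ⊆ Sd, Val x y (Many.hR m Lf x y c d g T' R) := by
    intro R hR i
    unfold Many.hR
    split_ifs with h1 h2
    · exact Many.ch_mem m Lf x y c d i
    · have h3 := (Finset.mem_filter.1 (hR h2)).2.1
      rcases hgcd i h3 with h4 | h4
      · exact Or.inl h4.1.symm
      · exact Or.inr h4.2.symm
    · exact hC.val i
  have hother : ∀ R ⊆ Sd, ∀ e, e ≠ c → e ≠ d → forced m Lf (Many.hR m Lf x y c d g T' R) e ≤ K := by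
    intro R hR e' h1 h2
    have h3 := hTH hLOC ι m Lf x y K lo hi hL hxy hB g c d hC T' (Many.hR m Lf x y c d g T' R)
      (hval R hR) (by
        intro i h4 h5
        unfold Many.hR
        rw [if_neg h5, if_neg]
        intro h6
        exact (Finset.mem_filter.1 (hR h6)).2.1 ((hT i).2 h4)) e' h1 h2
    omega
  have hA : ∀ R ⊆ Sd, forced m Lf (Many.hR m Lf x y c d g T' R) c +
      forced m Lf (Many.hR m Lf x y c d g T' R) d + 2 * lo ≤ 2 * K := by
    intro R hR
    have h1 : 2 * (forced m Lf (Many.hR m Lf x y c d g T' R) c +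
      forced m Lf (Many.hR m Lf x y c d g T' R) d) + ∑ i ∈ T', (m i + 1) ≤ 2 * ∑ i, (m i + 1) := by
      unfold forced
      rw [← Finset.sum_add_distrib, Finset.mul_sum, Finset.mul_sum]
      have h2 : ∑ i ∈ T', (m i + 1) = ∑ i, if i ∈ T' then m i + 1 else 0 := by
        rw [Finset.sum_ite_mem, Finset.univ_inter]
      rw [h2, ← Finset.sum_add_distrib]
      apply Finset.sum_le_sum
      intro i _
      by_cases h : i ∈ T'
      · have h3 : Many.hR m Lf x y c d g T' R i = Many.ch m Lf x y c d i := by
          unfold Many.hR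
          rw [if_pos h]
        rw [h3, if_pos h]
        have h4 := Many.ch_le m Lf x y c d i
          ((hL1 i).2.2.2.1 (x i) (y i) c d (hxy i) hcd ((hT i).1 (hT'T h)))
        omega
      · rw [if_neg h]
        have h4 := (hL1 i).2.1 (Many.hR m Lf x y c d g T' R i) c d hcd
        omega
    omega
  have hB0 : K ≤ forced m Lf (Many.hR m Lf x y c d g T' ∅) c + hi + 1 := by
    have h1 : forced m Lf g c ≤ forced m Lf (Many.hR m Lf x y c d g T' ∅) c +
        ∑ i ∈ T', (e i + 1) := by
      unfold forced
      have h2 : ∑ i ∈ T', (e i + 1) = ∑ i, if i ∈ T' then e i + 1 else 0 := by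
        rw [Finset.sum_ite_mem, Finset.univ_inter]
      rw [h2, ← Finset.sum_add_distrib]
      apply Finset.sum_le_sum
      intro i _
      by_cases h : i ∈ T'
      · rw [if_pos h]
        have := helight i (hT'T h)
        omega
      · have h3 : Many.hR m Lf x y c d g T' ∅ i = g i := by
          unfold Many.hR
          rw [if_neg h, if_neg (Finset.notMem_empty i)]
        rw [if_neg h, h3, add_zero]
    rw [Finset.sum_add_distrib, Finset.sum_const, hT'4, smul_eq_mul] at h1
    have h3 := heT T'
    omega
  have hSd1 : forced m Lf (Many.hR m Lf x y c d g T' Sd) c ≤ K := by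
    have h1 : forced m Lf (Many.hR m Lf x y c d g T' Sd) c ≤
        ∑ i, (1 + e i + if i ∈ T' then m i + 1 else 0) := by
      unfold forced
      apply Finset.sum_le_sum
      intro i _
      by_cases h : i ∈ T'
      · rw [if_pos h]
        have h4 := (hL1 i).2.1 (Many.hR m Lf x y c d g T' Sd i) c d hcd
        omega
      · by_cases h5 : i ∈ T
        · have h3 : Many.hR m Lf x y c d g T' Sd i = g i := by
            unfold Many.hR
            rw [if_neg h, if_neg]
            intro h6
            exact (Finset.mem_filter.1 h6).2.1 h5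
          rw [if_neg h, h3]
          have := helight i h5
          omega
        · have h3 : Many.hR m Lf x y c d g T' Sd i = c := by
            unfold Many.hR
            rw [if_neg h]
            by_cases h6 : i ∈ Sd
            · rw [if_pos h6]
            · rw [if_neg h6]
              have h7 : g i ≠ d := fun h8 => h6 (Finset.mem_filter.2 ⟨Finset.mem_univ _, h5, h8⟩)
              rcases hgcd i h5 with h8 | h8
              · rcases hC.val i with h9 | h9
                · rw [h9, h8.1]
                · exact absurd (h9.trans h8.2) h7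
              · rcases hC.val i with h9 | h9
                · exact absurd (h9.trans h8.1) h7
                · rw [h9, h8.2]
          rw [h3, ((hL1 i).2.2.2.2.2.2 c d hcd).1]
          omega
    rw [Finset.sum_add_distrib, Finset.sum_add_distrib, Finset.sum_ite_mem, Finset.univ_inter,
      Finset.sum_const, Finset.card_univ, smul_eq_mul, mul_one] at h1
    omega
  -- moving the stars one by one
  have hstep : ∀ S : Finset ι, S ⊆ Sd → K + 1 ≤ forced m Lf (Many.hR m Lf x y c d g T' S) c ∨
      ∃ R ⊆ Sd, forced m Lf (Many.hR m Lf x y c d g T' R) c ≤ K ∧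
        K ≤ forced m Lf (Many.hR m Lf x y c d g T' R) c + hi + 1 := by
    intro S
    induction S using Finset.induction_on with
    | empty =>
      intro _
      by_cases h : K + 1 ≤ forced m Lf (Many.hR m Lf x y c d g T' ∅) c
      · exact Or.inl h
      · exact Or.inr ⟨∅, Finset.empty_subset _, by omega, hB0⟩
    | insert j S hj ih =>
      intro hS
      rcases ih ((Finset.subset_insert j S).trans hS) with h1 | h1
      · by_cases h : K + 1 ≤ forced m Lf (Many.hR m Lf x y c d g T' (insert j S)) c
        · exact Or.inl h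
        · refine Or.inr ⟨insert j S, hS, by omega, ?_⟩
          have h2 : forced m Lf (Many.hR m Lf x y c d g T' S) c ≤
              forced m Lf (Many.hR m Lf x y c d g T' (insert j S)) c + hi := by
            have h3 : hi = ∑ i, if i = j then hi else 0 := by
              rw [Finset.sum_ite_eq', if_pos (Finset.mem_univ _)]
            conv_rhs => rw [h3]
            unfold forced
            rw [← Finset.sum_add_distrib]
            apply Finset.sum_le_sum
            intro i _
            by_cases h : i = j
            · rw [if_pos h]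
              have h4 := (hL1 i).2.1 (Many.hR m Lf x y c d g T' S i) c d hcd
              have h5 := hB.high i
              omega
            · rw [if_neg h]
              have h4 : Many.hR m Lf x y c d g T' (insert j S) i = Many.hR m Lf x y c d g T' S i := by
                have h7 : i ∈ insert j S ↔ i ∈ S := by
                  rw [Finset.mem_insert]
                  exact ⟨fun h8 => h8.resolve_left h, fun h8 => Or.inr h8⟩
                unfold Many.hR
                simp only [h7]
              rw [h4, add_zero]
          omega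
      · exact Or.inr h1
  rcases hstep Sd (Finset.Subset.refl _) with h1 | ⟨R, hR, h1, h2⟩
  · omega
  · refine ⟨Many.hR m Lf x y c d g T' R, hval R hR, ?_⟩
    intro e'
    by_cases hc : e' = c
    · rw [hc]
      exact h1
    · by_cases hd : e' = d
      · rw [hd]
        have := hA R hR
        omega
      · exact hother R hR e' hc hd

end Pool.Agent.Q206.EC
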