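import Pool.Agent.Q206.EC.Stm

/-!
# EC-MIN: the critical situation at minimal overload
-/

set_option autoImplicit false

namespace Pool.Agent.Q206.EC

open Finset

/-- changing one centre -/
theorem min_forced_update {ι : Type} [Fintype ι] [DecidableEq ι] (m : ι → ℕ)
    (Lf : (i : ι) → Fin (m i) → Finset ℕ) (g : ι → ℕ) (j : ι) (b e : ℕ) :
    forced m Lf (Function.update g j b) e + fc m Lf j (g j) e =
      forced m Lf g e + fc m Lf j b e := by
  classical
  unfold forced
  rw [← Finset.add_sum_erase univ (fun i => fc m Lf i (g i) e) (mem_univ j),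
    ← Finset.add_sum_erase univ (fun i => fc m Lf i (Function.update g j b i) e) (mem_univ j)]
  have h : ∑ i ∈ univ.erase j, fc m Lf i (Function.update g j b i) e =
      ∑ i ∈ univ.erase j, fc m Lf i (g i) e := by
    refine Finset.sum_congr rfl fun i hi => ?_
    rw [Function.update_of_ne (Finset.ne_of_mem_erase hi)]
  simp only [Function.update_self]
  rw [h]
  omega

theorem min_main : S_MIN := by
  classical
  intro hloc ι _ _ m Lf x y K lo hi hcard hxy hbig hno
  have L := hloc ι m Lf hcard
  have L1 : ∀ i g c d e, c ≠ d → c ≠ e → d ≠ e →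
      fc m Lf i g c + fc m Lf i g d + fc m Lf i g e ≤ m i + 1 := fun i => (L i).1
  have L2 : ∀ i g c d, c ≠ d → fc m Lf i g c + fc m Lf i g d ≤ m i + 1 := fun i => (L i).2.1
  have L3 : ∀ i x y c, x ≠ y → fc m Lf i x c + fc m Lf i y c ≤ m i + 1 :=
    fun i => (L i).2.2.1
  have L5 : ∀ i x y c d, x ≠ y → c ≠ d → ({x, y} : Finset ℕ) ≠ {c, d} →
      fc m Lf i y d ≤ 1 ∨ fc m Lf i y d + (fc m Lf i x c + fc m Lf i x d) ≤ m i + 1 :=
    fun i => (L i).2.2.2.2.1
  have hle : ∀ i g c, fc m Lf i g c ≤ m i + 1 := fun i g c => by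
    have := L2 i g c (c + 1) (by omega)
    omega
  have hall : ∀ g c, forced m Lf g c ≤ 2 * K := fun g c => by
    rw [← hbig.total]
    exact Finset.sum_le_sum fun i _ => hle i _ _
  have hex : ∃ n, ∃ g, Val x y g ∧ ∀ c, forced m Lf g c ≤ n :=
    ⟨2 * K, x, fun i => Or.inl rfl, fun c => hall x c⟩
  obtain ⟨M, hM⟩ : ∃ M, M = Nat.find hex := ⟨_, rfl⟩
  obtain ⟨g, hg, hgM⟩ : ∃ g, Val x y g ∧ ∀ c, forced m Lf g c ≤ M := by
    rw [hM]; exact Nat.find_spec hex
  have hmin : ∀ n, n < M → ¬ ∃ g, Val x y g ∧ ∀ c, forced m Lf g c ≤ n := fun n hn => by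
    rw [hM] at hn
    exact Nat.find_min hex hn
  have hMK : K + 1 ≤ M := by
    by_contra hcon
    exact hno ⟨g, hg, fun c => (hgM c).trans (by omega)⟩
  have hA : ∀ g', Val x y g' → ∃ c, M ≤ forced m Lf g' c := by
    intro g' hg'
    by_contra hcon
    push Not at hcon
    exact hmin (M - 1) (by omega) ⟨g', hg', fun c => by have := hcon c; omega⟩
  obtain ⟨c, hc⟩ := hA g hg
  have hcM : forced m Lf g c = M := le_antisymm (hgM c) hc
  -- the other colour of the centre
  obtain ⟨o, ho, hov, hos⟩ : ∃ o : ι → ℕ, (∀ i, g i ≠ o i) ∧ (∀ i, o i = x i ∨ o i = y i) ∧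
      ∀ i, ({g i, o i} : Finset ℕ) = {x i, y i} := by
    refine ⟨fun i => if g i = x i then y i else x i, fun i => ?_, fun i => ?_, fun i => ?_⟩
    · have h1 := hg i
      have h2 := hxy i
      by_cases h : g i = x i
      · simp only [h, if_true]; exact h2
      · simp only [h, if_false]; exact fun h' => h h'
    · by_cases h : g i = x i
      · simp [h]
      · simp [h]
    · have h1 := hg i
      by_cases h : g i = x i
      · simp [h]
      · have h3 : g i = y i := h1.resolve_left h
        simp only [h, if_false]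
        rw [h3, Finset.pair_comm]
  have hupd : ∀ j, Val x y (Function.update g j (o j)) := by
    intro j i
    by_cases h : i = j
    · subst h; simp only [Function.update_self]; exact hov i
    · rw [Function.update_of_ne h]; exact hg i
  have hstar : ∃ j, fc m Lf j (o j) c < fc m Lf j (g j) c := by
    by_contra hcon
    push Not at hcon
    have h1 : forced m Lf g c + forced m Lf g c ≤ ∑ i, (m i + 1) := by
      unfold forced
      rw [← Finset.sum_add_distrib]
      refine Finset.sum_le_sum fun i _ => ?_
      have := L3 i (g i) (o i) c (ho i)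
      have := hcon i
      omega
    rw [hbig.total] at h1
    omega
  obtain ⟨j, hj⟩ := hstar
  obtain ⟨d, hd⟩ := hA _ (hupd j)
  have hju := min_forced_update m Lf g j (o j)
  have hdc : c ≠ d := by
    rintro rfl
    have := hju c
    omega
  have htight : 2 * K + 2 ≤ forced m Lf g c + forced m Lf g d + hi := by
    have h1 := hju d
    have h2 := hle j (o j) d
    have h3 := hbig.high j
    omega
  refine ⟨g, c, d, hg, hdc, by omega, htight, ?_⟩
  intro i hi'
  have hset : ({g i, o i} : Finset ℕ) ≠ {c, d} := by rw [hos i]; exact hi'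
  have hset' : ({g i, o i} : Finset ℕ) ≠ {d, c} := by rw [Finset.pair_comm d c]; exact hset
  have h5a := L5 i (g i) (o i) d c (ho i) hdc.symm hset'
  have h5b := L5 i (g i) (o i) c d (ho i) hdc hset
  have h2i := L2 i (g i) c d hdc
  by_cases hcase : fc m Lf i (g i) c ≤ fc m Lf i (o i) c
  · rcases h5a with h | h
    · omega
    · omega
  · push Not at hcase
    exfalso
    obtain ⟨d', hd'⟩ := hA _ (hupd i)
    have hiu := min_forced_update m Lf g i (o i)
    have hd'c : c ≠ d' := by
      rintro rfl
      have := hiu c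
      omega
    by_cases hdd : d' = d
    · subst hdd
      have h1 := hiu d'
      -- `e_i ≤ E`
      have h3 : forced m Lf g c + forced m Lf g d' + (m i + 1) ≤
          2 * K + (fc m Lf i (g i) c + fc m Lf i (g i) d') := by
        rw [← hbig.total]
        unfold forced
        rw [← Finset.sum_add_distrib,
          ← Finset.add_sum_erase univ (fun j => fc m Lf j (g j) c + fc m Lf j (g j) d')
            (mem_univ i), ← Finset.add_sum_erase univ (fun j => m j + 1) (mem_univ i)]
        have h4 : ∑ k ∈ univ.erase i, (fc m Lf k (g k) c + fc m Lf k (g k) d') ≤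
            ∑ k ∈ univ.erase i, (m k + 1) :=
          Finset.sum_le_sum fun k _ => L2 k (g k) c d' hdc
        omega
      rcases h5b with h | h
      · omega
      · omega
    · have h1 := hiu d'
      have h3 : forced m Lf g c + forced m Lf g d + forced m Lf g d' ≤ 2 * K := by
        rw [← hbig.total]
        unfold forced
        rw [← Finset.sum_add_distrib, ← Finset.sum_add_distrib]
        exact Finset.sum_le_sum fun k _ => L1 k (g k) c d d' hdc hd'c (Ne.symm hdd)
      have h4 := hle i (o i) d'
      have h5 := hbig.high i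
      have h6 := hbig.big
      omega

end Pool.Agent.Q206.EC
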