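import Pool.Agent.Q206.EC.Stm

/-!
# EC-LOC: facts about one star
-/

set_option autoImplicit false

namespace Pool.Agent.Q206.EC

open Finset

theorem pair_eq_iff (a b c d : ℕ) :
    (({a, b} : Finset ℕ) = {c, d}) ↔ (a = c ∧ b = d) ∨ (a = d ∧ b = c) := by
  rw [← Finset.coe_inj]
  simp only [Finset.coe_insert, Finset.coe_singleton]
  exact Set.pair_eq_pair_iff

section
variable {ι : Type} (m : ι → ℕ)
    (Lf : (i : ι) → Fin (m i) → Finset ℕ)

theorem nl_sum (i : ι) (F : Finset (Finset ℕ)) :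
    ∑ s ∈ F, (univ.filter (fun v : Fin (m i) => Lf i v = s)).card ≤ m i := by
  have h := Finset.card_eq_sum_card_fiberwise (s := univ.filter (fun v : Fin (m i) => Lf i v ∈ F))
    (t := F) (f := Lf i) (fun v hv => by simpa using hv)
  have h2 : (univ.filter (fun v : Fin (m i) => Lf i v ∈ F)).card ≤ m i := by
    refine (Finset.card_le_univ _).trans ?_
    simp
  rw [h] at h2
  refine le_trans (le_of_eq ?_) h2
  refine Finset.sum_congr rfl fun s hs => ?_
  congr 1
  ext v
  simp only [mem_filter, mem_univ, true_and]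
  constructor
  · rintro rfl; exact ⟨hs, rfl⟩
  · exact fun h => h.2

theorem nl2 (i : ι) (a b c d : ℕ) (h : ({a, b} : Finset ℕ) ≠ {c, d}) :
    nl m Lf i a b + nl m Lf i c d ≤ m i := by
  have := nl_sum m Lf i {({a, b} : Finset ℕ), {c, d}}
  rwa [Finset.sum_pair h] at this

theorem nl1 (i : ι) (a b : ℕ) : nl m Lf i a b ≤ m i := by
  have := nl_sum m Lf i {({a, b} : Finset ℕ)}
  rwa [Finset.sum_singleton] at this

theorem nl3 (i : ι) (a b c d e f : ℕ) (h : ({a, b} : Finset ℕ) ≠ {c, d})
    (h1 : ({a, b} : Finset ℕ) ≠ {e, f}) (h2 : ({c, d} : Finset ℕ) ≠ {e, f}) :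
    nl m Lf i a b + nl m Lf i c d + nl m Lf i e f ≤ m i := by
  have := nl_sum m Lf i {({a, b} : Finset ℕ), {c, d}, {e, f}}
  rw [Finset.sum_insert, Finset.sum_pair h2] at this
  · unfold nl; omega
  · simp only [mem_insert, mem_singleton, not_or]; exact ⟨h, h1⟩

theorem nl4 (i : ι) (a b c d e f g k : ℕ) (h : ({a, b} : Finset ℕ) ≠ {c, d})
    (h1 : ({a, b} : Finset ℕ) ≠ {e, f}) (h2 : ({c, d} : Finset ℕ) ≠ {e, f})
    (h3 : ({a, b} : Finset ℕ) ≠ {g, k}) (h4 : ({c, d} : Finset ℕ) ≠ {g, k})
    (h5 : ({e, f} : Finset ℕ) ≠ {g, k}) :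
    nl m Lf i a b + nl m Lf i c d + nl m Lf i e f + nl m Lf i g k ≤ m i := by
  have := nl_sum m Lf i {({a, b} : Finset ℕ), {c, d}, {e, f}, {g, k}}
  rw [Finset.sum_insert, Finset.sum_insert, Finset.sum_pair h5] at this
  · unfold nl; omega
  · simp only [mem_insert, mem_singleton, not_or]; exact ⟨h2, h4⟩
  · simp only [mem_insert, mem_singleton, not_or]; exact ⟨h, h1, h3⟩

theorem nl_comm (i : ι) (a b : ℕ) : nl m Lf i a b = nl m Lf i b a := by
  unfold nl; rw [Finset.pair_comm]

theorem s_loc : S_LOC := by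
  intro ι _ _ m Lf hL i
  refine ⟨?_, ?_, ?_, ?_, ?_, ?_, ?_⟩
  · intro g c d e hcd hce hde
    unfold fc
    by_cases h1 : g = c
    · subst h1
      have := nl2 m Lf i g d g e (by rw [Ne, pair_eq_iff]; omega)
      rw [if_pos rfl, if_neg hcd, if_neg hce]; omega
    by_cases h2 : g = d
    · subst h2
      have := nl2 m Lf i g c g e (by rw [Ne, pair_eq_iff]; omega)
      rw [if_pos rfl, if_neg h1, if_neg hde]; omega
    by_cases h3 : g = e
    · subst h3
      have := nl2 m Lf i g c g d (by rw [Ne, pair_eq_iff]; omega)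
      rw [if_pos rfl, if_neg h1, if_neg h2]; omega
    have := nl3 m Lf i g c g d g e (by rw [Ne, pair_eq_iff]; omega)
      (by rw [Ne, pair_eq_iff]; omega) (by rw [Ne, pair_eq_iff]; omega)
    rw [if_neg h1, if_neg h2, if_neg h3]; omega
  · intro g c d hcd
    unfold fc
    by_cases h1 : g = c
    · subst h1
      have := nl1 m Lf i g d
      rw [if_pos rfl, if_neg hcd]; omega
    by_cases h2 : g = d
    · subst h2
      have := nl1 m Lf i g c
      rw [if_pos rfl, if_neg h1]; omega
    have := nl2 m Lf i g c g d (by rw [Ne, pair_eq_iff]; omega)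
    rw [if_neg h1, if_neg h2]; omega
  · intro x y c hxy
    unfold fc
    by_cases h1 : x = c
    · subst h1
      have := nl1 m Lf i y x
      rw [if_pos rfl, if_neg hxy.symm]; omega
    by_cases h2 : y = c
    · subst h2
      have := nl1 m Lf i x y
      rw [if_pos rfl, if_neg h1]; omega
    have := nl2 m Lf i x c y c (by rw [Ne, pair_eq_iff]; omega)
    rw [if_neg h1, if_neg h2]; omega
  · intro x y c d hxy hcd hne
    rw [Ne, pair_eq_iff] at hne
    unfold fc
    by_cases h1 : x = c
    · subst h1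
      have hy : y ≠ d := by omega
      have := nl3 m Lf i x d y x y d (by rw [Ne, pair_eq_iff]; omega)
        (by rw [Ne, pair_eq_iff]; omega) (by rw [Ne, pair_eq_iff]; omega)
      rw [if_pos rfl, if_neg hcd, if_neg hxy.symm, if_neg hy]; omega
    by_cases h2 : x = d
    · subst h2
      have hy : y ≠ c := by omega
      have := nl3 m Lf i x c y x y c (by rw [Ne, pair_eq_iff]; omega)
        (by rw [Ne, pair_eq_iff]; omega) (by rw [Ne, pair_eq_iff]; omega)
      rw [if_pos rfl, if_neg h1, if_neg hxy.symm, if_neg hy]; omega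
    by_cases h3 : y = c
    · subst h3
      have := nl3 m Lf i x y x d y d (by rw [Ne, pair_eq_iff]; omega)
        (by rw [Ne, pair_eq_iff]; omega) (by rw [Ne, pair_eq_iff]; omega)
      rw [if_pos rfl, if_neg h1, if_neg h2, if_neg hcd]; omega
    by_cases h4 : y = d
    · subst h4
      have := nl3 m Lf i x c x y y c (by rw [Ne, pair_eq_iff]; omega)
        (by rw [Ne, pair_eq_iff]; omega) (by rw [Ne, pair_eq_iff]; omega)
      rw [if_pos rfl, if_neg h1, if_neg h2, if_neg h3]; omega
    have := nl4 m Lf i x c x d y c y d (by rw [Ne, pair_eq_iff]; omega)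
      (by rw [Ne, pair_eq_iff]; omega) (by rw [Ne, pair_eq_iff]; omega)
      (by rw [Ne, pair_eq_iff]; omega) (by rw [Ne, pair_eq_iff]; omega)
      (by rw [Ne, pair_eq_iff]; omega)
    rw [if_neg h1, if_neg h2, if_neg h3, if_neg h4]; omega
  · intro x y c d hxy hcd hne
    rw [Ne, pair_eq_iff] at hne
    unfold fc
    by_cases h4 : y = d
    · left; rw [if_pos h4]
    right
    rw [if_neg h4]
    by_cases h1 : x = c
    · subst h1
      have := nl2 m Lf i y d x d (by rw [Ne, pair_eq_iff]; omega)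
      rw [if_pos rfl, if_neg hcd]; omega
    by_cases h2 : x = d
    · subst h2
      have := nl2 m Lf i y x x c (by rw [Ne, pair_eq_iff]; omega)
      rw [if_pos rfl, if_neg h1]; omega
    have := nl3 m Lf i y d x c x d (by rw [Ne, pair_eq_iff]; omega)
      (by rw [Ne, pair_eq_iff]; omega) (by rw [Ne, pair_eq_iff]; omega)
    rw [if_neg h1, if_neg h2]; omega
  · intro c d e h h' hcd hce hde hh hh'
    unfold fc
    have hhe : h ≠ e := by omega
    have key := nl2 m Lf i h e c d (by rw [Ne, pair_eq_iff]; omega)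
    have key' := nl2 m Lf i h e d c (by rw [Ne, pair_eq_iff]; omega)
    rw [if_neg hhe]
    rcases hh' with rfl | rfl
    · rw [if_pos rfl, if_neg hcd]; omega
    · rw [if_pos rfl, if_neg hcd.symm]; omega
  · intro c d hcd
    unfold fc
    rw [if_pos rfl, if_pos rfl, if_neg hcd, if_neg hcd.symm, nl_comm m Lf i d c]
    exact ⟨rfl, rfl, rfl, nl1 m Lf i c d⟩

end

end Pool.Agent.Q206.EC
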