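import Pool.Agent.Q206.EC.Stm

/-!
# EC-NUM: the numerical assumptions hold
-/

set_option autoImplicit false

namespace Pool.Agent.Q206.EC

open Finset Pool.Agent.NPC Pool.Agent.NPC.R671.SS

theorem sum_first (l1 l2 : List ℕ) (f : ℕ → ℕ) :
    ∑ i : Fin (l1 ++ l2).length, (if i.val < l1.length then f ((l1 ++ l2).get i) else 0) =
      (l1.map f).sum := by
  induction l1 with
  | nil => simp
  | cons a l ih =>
    have : ∑ i : Fin (a :: l ++ l2).length,
        (if i.val < (a :: l).length then f ((a :: l ++ l2).get i) else 0) =
        ∑ i : Fin ((l ++ l2).length + 1),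
        (if i.val < (a :: l).length then f ((a :: (l ++ l2)).get i) else 0) := rfl
    rw [this, Fin.sum_univ_succ]
    simp only [List.map_cons, List.sum_cons, ← ih]
    simp

theorem sum_all (l : List ℕ) (f : ℕ → ℕ) :
    ∑ i : Fin l.length, f (l.get i) = (l.map f).sum := by
  induction l with
  | nil => simp
  | cons a l ih =>
    have : ∑ i : Fin (a :: l).length, f ((a :: l).get i) =
        ∑ i : Fin (l.length + 1), f ((a :: l).get i) := rfl
    rw [this, Fin.sum_univ_succ]
    simp only [List.map_cons, List.sum_cons, ← ih]
    simp

/-- the first part of the instance -/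
def part1 (p : List ℕ × ℕ) : List ℕ :=
  (p.1.map (fun a => 4 * WW p + a) ++
    [4 * WW p + (2 * p.1.sum - p.2), 4 * WW p + (p.1.sum + p.2)] ++
    List.replicate (p.1.length + 16) (4 * WW p)).map (· + 1)

/-- the second part of the instance -/
def part2 (p : List ℕ × ℕ) : List ℕ := (List.replicate 16 (5 * WW p)).map (· + 1)

theorem inst_eq (p : List ℕ × ℕ) : ecInst p = part1 p ++ part2 p := by
  unfold ecInst wts part1 part2
  rw [List.map_append]

theorem part1_length (p : List ℕ × ℕ) : (part1 p).length = 2 * p.1.length + 18 := by
  unfold part1; simp; omega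

theorem part2_length (p : List ℕ × ℕ) : (part2 p).length = 16 := by
  unfold part2; simp

theorem mem_part1 (p : List ℕ × ℕ) (hp : Nice p) (x : ℕ) (hx : x ∈ part1 p) :
    4 * WW p + 1 ≤ x ∧ x ≤ 5 * WW p + 1 := by
  have hW : WW p = 4 * p.1.sum + p.1.length + 100 := rfl
  have hp2 := hp.2
  unfold part1 at hx
  simp only [List.mem_map, List.mem_append, List.mem_cons, List.not_mem_nil, or_false,
    List.mem_replicate] at hx
  obtain ⟨w, hw, rfl⟩ := hx
  rcases hw with (⟨a, ha, rfl⟩ | rfl | rfl) | ⟨-, rfl⟩
  · have := List.single_le_sum (l := p.1) (fun x _ => Nat.zero_le x) a ha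
    omega
  · omega
  · omega
  · omega

theorem mem_part2 (p : List ℕ × ℕ) (x : ℕ) (hx : x ∈ part2 p) : x = 5 * WW p + 1 := by
  unfold part2 at hx
  simp only [List.mem_map, List.mem_replicate] at hx
  obtain ⟨w, ⟨-, rfl⟩, rfl⟩ := hx
  rfl

theorem sum_map_add (l : List ℕ) (c : ℕ) : (l.map (fun a => c + a)).sum = c * l.length + l.sum := by
  induction l with
  | nil => simp
  | cons a l ih => simp only [List.map_cons, List.sum_cons, List.length_cons, ih]; ring

theorem sum_map_add' (l : List ℕ) (c : ℕ) : (l.map (fun a => a + c)).sum = c * l.length + l.sum := by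
  induction l with
  | nil => simp
  | cons a l ih => simp only [List.map_cons, List.sum_cons, List.length_cons, ih]; ring

theorem wts_sum (p : List ℕ × ℕ) (hp : Nice p) :
    (wts p).sum = (8 * p.1.length + 152) * WW p + 4 * p.1.sum := by
  have hp2 := hp.2
  unfold wts
  simp only [List.sum_append, List.sum_cons, List.sum_nil, List.sum_replicate, sum_map_add,
    smul_eq_mul]
  have : 2 * p.1.sum - p.2 + p.2 = 2 * p.1.sum := by omega
  obtain ⟨u, hu⟩ : ∃ u, 2 * p.1.sum - p.2 = u := ⟨_, rfl⟩
  rw [hu] at this ⊢
  have e : 4 * WW p * p.1.length + p.1.sum + (4 * WW p + u + (4 * WW p + (p.1.sum + p.2) + 0)) +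
      (p.1.length + 16) * (4 * WW p) + 16 * (5 * WW p) =
      (8 * p.1.length + 152) * WW p + 2 * p.1.sum + (u + p.2) := by ring
  rw [e, this]; ring

theorem wts_length (p : List ℕ × ℕ) : (wts p).length = 2 * p.1.length + 34 := by
  unfold wts; simp; omega

theorem s_num : S_NUM := by
  intro p hp
  have hW : WW p = 4 * p.1.sum + p.1.length + 100 := rfl
  have hp2 := hp.2
  refine ⟨(4 * p.1.length + 76) * WW p + 2 * p.1.sum + (2 * p.1.length + 34), 4 * WW p + 2,
    5 * WW p + 2, WW p, ?_, ?_, ?_⟩
  · have hall : ∀ i : Fin (ecInst p).length, 4 * WW p + 1 ≤ (ecInst p).get i ∧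
        (ecInst p).get i ≤ 5 * WW p + 1 := by
      intro i
      have hm : (ecInst p).get i ∈ ecInst p := List.get_mem _ _
      generalize (ecInst p).get i = a at hm ⊢
      rw [inst_eq, List.mem_append] at hm
      rcases hm with hm | hm
      · exact mem_part1 p hp _ hm
      · have := mem_part2 p _ hm
        omega
    constructor
    · rw [sum_all (ecInst p) (fun a => a + 1), sum_map_add']
      have h1 : (ecInst p).length = 2 * p.1.length + 34 := by
        unfold ecInst; rw [List.length_map, wts_length]
      have h2 : (ecInst p).sum = 1 * (wts p).length + (wts p).sum := by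
        unfold ecInst; rw [sum_map_add']
      rw [h1, h2, wts_length, wts_sum p hp]
      ring
    · intro i; have := hall i; omega
    · intro i; have := hall i; omega
    · omega
    · rw [Fintype.card_fin]
      have h1 : (ecInst p).length = 2 * p.1.length + 34 := by
        unfold ecInst; rw [List.length_map, wts_length]
      rw [h1]
      have h3 : 76 * WW p ≤ (4 * p.1.length + 76) * WW p := Nat.mul_le_mul_right _ (by omega)
      omega
  · intro i
    have hm : (ecInst p).get i ∈ ecInst p := List.get_mem _ _
    unfold ecInst at hm
    rw [List.mem_map] at hm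
    obtain ⟨a, -, ha⟩ := hm
    unfold ecInst
    rw [← ha]; omega
  · rw [inst_eq]
    refine ⟨univ.filter (fun i => i.val < (part1 p).length),
      univ.filter (fun i => ¬ i.val < (part1 p).length), ?_, ?_, ?_, ?_, ?_, ?_, ?_⟩
    · exact Finset.disjoint_filter_filter_not _ _ _
    · exact Finset.filter_union_filter_not_eq _ _
    · intro i hi
      rw [mem_filter] at hi
      have : (part1 p ++ part2 p).get i ∈ part1 p := by
        rw [List.get_eq_getElem, List.getElem_append_left hi.2]
        exact List.getElem_mem _
      have := mem_part1 p hp _ this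
      omega
    · rw [Finset.sum_filter, sum_first (part1 p) (part2 p) (fun a => a - 1 - 4 * WW p)]
      unfold part1
      rw [List.map_map]
      have : ((fun a => a - 1 - 4 * WW p) ∘ fun x => x + 1) = fun x : ℕ => x - 4 * WW p := by
        funext x; simp
      rw [this]
      simp only [List.map_append, List.map_map, List.map_cons, List.map_nil, List.sum_append,
        List.sum_cons, List.sum_nil, List.map_replicate, List.sum_replicate]
      have : ((fun x => x - 4 * WW p) ∘ fun a => 4 * WW p + a) = fun x : ℕ => x := by
        funext x; simp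
      rw [this]
      simp only [List.map_id', smul_eq_mul, Nat.sub_self, mul_zero]
      omega
    · intro i hi
      rw [mem_filter] at hi
      have : (part1 p ++ part2 p).get i ∈ part2 p := by
        rw [List.get_eq_getElem, List.getElem_append_right (by omega)]
        exact List.getElem_mem _
      have := mem_part2 p _ this
      omega
    · rw [Finset.card_filter]
      rw [sum_first (part1 p) (part2 p) (fun _ => 1)]
      simp [part1_length]
    · have h1 := Finset.card_filter_add_card_filter_not (s := (univ : Finset (Fin (part1 p ++ part2 p).length)))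
        (fun i => i.val < (part1 p).length)
      have h2 : (univ.filter (fun i : Fin (part1 p ++ part2 p).length =>
          i.val < (part1 p).length)).card = (part1 p).length := by
        rw [Finset.card_filter, sum_first (part1 p) (part2 p) (fun _ => 1)]
        simp
      rw [h2] at h1
      have h4 : (univ : Finset (Fin (part1 p ++ part2 p).length)).card =
          (part1 p).length + 16 := by
        rw [Finset.card_univ, Fintype.card_fin, List.length_append, part2_length]
      rw [h4] at h1
      have h5 := Nat.add_left_cancel h1
      refine le_trans (by norm_num : 8 ≤ 16) (le_of_eq ?_)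
      exact h5.symm

end Pool.Agent.Q206.EC
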