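import Pool.Agent.Q206.EC.Stm

/-!
# EC-POLY: polynomial time of the reduction
-/

set_option autoImplicit false

namespace Pool.Agent.Q206.EC

open Finset Pool.Agent.NPC Pool.Agent.NPC.R671.SS

theorem rep_poly {α : Type} [TEnc α] {k c : α → ℕ} (hk : UPoly k) (hc : Poly c) :
    Poly (fun a => List.replicate (k a) (c a)) := by
  have h1 : Poly (fun a => (List.range (k a)).map (fun _ => c a)) :=
    Pool.Agent.NPC.Poly.map (l := fun a => List.range (k a)) (F := fun a _ => c a) hk.range
      (hc.comp (Poly.fst Poly.id))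
  exact h1.congr fun a => by
    rw [List.map_const', List.length_range]

theorem WW_poly : Poly WW := by
  unfold WW
  fun_prop

attribute [fun_prop] WW_poly

theorem s_poly : S_POLY := by
  unfold S_POLY ecInst wts
  have hu : UPoly (fun p : List ℕ × ℕ => p.1.length + 16) :=
    (UPoly.length (Poly.fst Poly.id)).add (UPoly.const 16)
  have h1 : Poly (fun p : List ℕ × ℕ => List.replicate (p.1.length + 16) (4 * WW p)) :=
    rep_poly hu (by fun_prop)
  have h2 : Poly (fun p : List ℕ × ℕ => List.replicate 16 (5 * WW p)) :=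
    rep_poly (UPoly.const 16) (by fun_prop)
  have h3 : Poly (fun p : List ℕ × ℕ => p.1.map (fun a => 4 * WW p + a) ++
      [4 * WW p + (2 * p.1.sum - p.2), 4 * WW p + (p.1.sum + p.2)]) := by
    fun_prop
  have h4 := (h3.append h1).append h2
  exact Pool.Agent.NPC.Poly.map (l := fun p : List ℕ × ℕ => p.1.map (fun a => 4 * WW p + a) ++
      [4 * WW p + (2 * p.1.sum - p.2), 4 * WW p + (p.1.sum + p.2)] ++
      List.replicate (p.1.length + 16) (4 * WW p) ++ List.replicate 16 (5 * WW p))
      (F := fun _ a => a + 1) h4 (by fun_prop)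

end Pool.Agent.Q206.EC
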