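import Pool.Agent.Q206.EC.Stm

/-!
# EC-SUM: correctness of the numbers
-/

set_option autoImplicit false

namespace Pool.Agent.Q206.EC

open Finset Pool.Agent.NPC Pool.Agent.NPC.R671.SS

/-- the differences of the two sums for the divisions of the list into two parts -/
def TT : List ℤ → ℤ → Prop
  | [], d => d = 0
  | a :: l, d => TT l (d - a) ∨ TT l (d + a)

theorem eps_iff (l : List ℕ) (f : ℕ → ℤ) (d : ℤ) :
    (∃ e : Fin l.length → Bool, ∑ i, (if e i = true then f (l.get i) else - f (l.get i)) = d) ↔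
      TT (l.map f) d := by
  induction l generalizing d with
  | nil =>
    simp only [List.length_nil, List.map_nil, TT]
    constructor
    · rintro ⟨e, he⟩; rw [← he]; simp
    · rintro rfl; exact ⟨fun _ => true, by simp⟩
  | cons a l ih =>
    simp only [List.map_cons, TT, ← ih]
    constructor
    · rintro ⟨e, he⟩
      have he' : ∑ i : Fin (l.length + 1), (if e i = true then f ((a :: l).get i)
          else - f ((a :: l).get i)) = d := he
      rw [Fin.sum_univ_succ] at he'
      by_cases h0 : e 0 = true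
      · left
        refine ⟨fun i => e i.succ, ?_⟩
        rw [if_pos h0] at he'
        simp only [List.get_eq_getElem, Fin.val_zero, List.getElem_cons_zero, Fin.val_succ,
          List.getElem_cons_succ] at he' ⊢
        linarith
      · right
        refine ⟨fun i => e i.succ, ?_⟩
        rw [if_neg h0] at he'
        simp only [List.get_eq_getElem, Fin.val_zero, List.getElem_cons_zero, Fin.val_succ,
          List.getElem_cons_succ] at he' ⊢
        linarith
    · rintro (⟨e, he⟩ | ⟨e, he⟩)
      · refine ⟨(Fin.cons true e : Fin (l.length + 1) → Bool), ?_⟩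
        have : ∑ i : Fin (l.length + 1), (if (Fin.cons true e : Fin (l.length + 1) → Bool) i = true
            then f ((a :: l).get i) else - f ((a :: l).get i)) = d := by
          rw [Fin.sum_univ_succ]
          simp only [Fin.cons_zero, Fin.cons_succ, List.get_eq_getElem, Fin.val_zero,
            List.getElem_cons_zero, Fin.val_succ, List.getElem_cons_succ, if_true] at he ⊢
          linarith
        exact this
      · refine ⟨(Fin.cons false e : Fin (l.length + 1) → Bool), ?_⟩
        have : ∑ i : Fin (l.length + 1), (if (Fin.cons false e : Fin (l.length + 1) → Bool) i = true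
            then f ((a :: l).get i) else - f ((a :: l).get i)) = d := by
          rw [Fin.sum_univ_succ]
          simp only [Fin.cons_zero, Fin.cons_succ, List.get_eq_getElem, Fin.val_zero,
            List.getElem_cons_zero, Fin.val_succ, List.getElem_cons_succ, Bool.false_eq_true,
            if_false] at he ⊢
          linarith
        exact this

theorem TT_iff (l : List ℕ) (f : ℕ → ℤ) :
    (∃ P : Finset (Fin l.length), ∑ i ∈ P, f (l.get i) = ∑ i ∈ Pᶜ, f (l.get i)) ↔
      TT (l.map f) 0 := by
  rw [← eps_iff]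
  constructor
  · rintro ⟨P, hP⟩
    refine ⟨fun i => decide (i ∈ P), ?_⟩
    simp only [decide_eq_true_eq]
    rw [Finset.sum_ite]
    have h1 : univ.filter (fun i => i ∈ P) = P := by ext; simp
    have h2 : univ.filter (fun i => i ∉ P) = Pᶜ := by ext; simp
    rw [h1, h2, Finset.sum_neg_distrib, hP]
    ring
  · rintro ⟨e, he⟩
    refine ⟨univ.filter (fun i => e i = true), ?_⟩
    rw [Finset.sum_ite, Finset.sum_neg_distrib] at he
    have h2 : (univ.filter (fun i => e i = true))ᶜ = univ.filter (fun i => ¬ e i = true) := by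
      ext; simp
    rw [h2]
    linarith

theorem TT_append (l1 l2 : List ℤ) (d : ℤ) :
    TT (l1 ++ l2) d ↔ ∃ d1 d2, TT l1 d1 ∧ TT l2 d2 ∧ d1 + d2 = d := by
  induction l1 generalizing d with
  | nil =>
    simp only [List.nil_append, TT]
    constructor
    · intro h; exact ⟨0, d, rfl, h, by ring⟩
    · rintro ⟨d1, d2, rfl, h, rfl⟩; rwa [zero_add]
  | cons a l ih =>
    simp only [List.cons_append, TT, ih]
    constructor
    · rintro (⟨d1, d2, h1, h2, h3⟩ | ⟨d1, d2, h1, h2, h3⟩)
      · exact ⟨d1 + a, d2, Or.inl (by rwa [add_sub_cancel_right]), h2, by linarith⟩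
      · exact ⟨d1 - a, d2, Or.inr (by rwa [sub_add_cancel]), h2, by linarith⟩
    · rintro ⟨d1, d2, h1 | h1, h2, h3⟩
      · exact Or.inl ⟨d1 - a, d2, h1, h2, by linarith⟩
      · exact Or.inr ⟨d1 + a, d2, h1, h2, by linarith⟩

theorem TT_rep (k : ℕ) (c d : ℤ) :
    TT (List.replicate k c) d ↔ ∃ j : ℕ, j ≤ k ∧ d = (2 * j - k) * c := by
  induction k generalizing d with
  | zero =>
    simp only [List.replicate_zero, TT]
    constructor
    · rintro rfl; exact ⟨0, le_refl _, by simp⟩
    · rintro ⟨j, hj, rfl⟩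
      have : j = 0 := by omega
      subst this; simp
  | succ k ih =>
    simp only [List.replicate_succ, TT, ih]
    constructor
    · rintro (⟨j, hj, h⟩ | ⟨j, hj, h⟩)
      · refine ⟨j + 1, by omega, ?_⟩
        have : d = (2 * j - k) * c + c := by linarith
        rw [this]; push_cast; ring
      · refine ⟨j, by omega, ?_⟩
        have : d = (2 * j - k) * c - c := by linarith
        rw [this]; push_cast; ring
    · rintro ⟨j, hj, h⟩
      rcases Nat.eq_zero_or_pos j with h0 | h0
      · subst h0
        right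
        refine ⟨0, by omega, ?_⟩
        rw [h]; push_cast; ring
      · left
        obtain ⟨j', rfl⟩ : ∃ j', j = j' + 1 := ⟨j - 1, by omega⟩
        refine ⟨j', by omega, ?_⟩
        rw [h]; push_cast; ring

theorem TT_items (W : ℤ) (l : List ℕ) (d : ℤ) :
    TT (l.map (fun a : ℕ => (4 * W + a : ℤ))) d ↔ ∃ s : List ℕ, s.Sublist l ∧
      d = 4 * W * (2 * s.length - l.length) + (2 * (s.sum : ℕ) - (l.sum : ℕ)) := by
  induction l generalizing d with
  | nil =>
    simp only [List.map_nil, TT]
    constructor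
    · rintro rfl; exact ⟨[], List.Sublist.refl _, by simp⟩
    · rintro ⟨s, hs, rfl⟩
      rw [List.sublist_nil] at hs
      subst hs; simp
  | cons a l ih =>
    simp only [List.map_cons, TT, ih]
    constructor
    · rintro (⟨s, hs, h⟩ | ⟨s, hs, h⟩)
      · refine ⟨a :: s, hs.cons_cons a, ?_⟩
        simp only [List.length_cons, List.sum_cons, Nat.cast_add, Nat.cast_one]
        linarith
      · refine ⟨s, hs.cons a, ?_⟩
        simp only [List.length_cons, List.sum_cons, Nat.cast_add, Nat.cast_one]
        linarith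
    · rintro ⟨s, hs, h⟩
      rw [List.sublist_cons_iff] at hs
      rcases hs with hs | ⟨r, rfl, hs⟩
      · right
        refine ⟨s, hs, ?_⟩
        simp only [List.length_cons, List.sum_cons, Nat.cast_add, Nat.cast_one] at h
        linarith
      · left
        refine ⟨r, hs, ?_⟩
        simp only [List.length_cons, List.sum_cons, Nat.cast_add, Nat.cast_one] at h
        linarith

/-- the complement of a sublist -/
theorem sublist_compl (l s : List ℕ) (hs : s.Sublist l) :
    ∃ r : List ℕ, r.Sublist l ∧ r.sum + s.sum = l.sum := by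
  induction hs with
  | slnil => exact ⟨[], List.Sublist.refl _, rfl⟩
  | cons a h ih =>
    obtain ⟨r, hr, h2⟩ := ih
    refine ⟨a :: r, hr.cons_cons a, ?_⟩
    simp only [List.sum_cons]; omega
  | cons_cons a h ih =>
    obtain ⟨r, hr, h2⟩ := ih
    refine ⟨r, hr.cons a, ?_⟩
    simp only [List.sum_cons]; omega

theorem wts_map (p : List ℕ × ℕ) (hp : Nice p) :
    (ecInst p).map (fun a : ℕ => (a : ℤ) - 1) =
      (p.1.map (fun a : ℕ => (4 * (WW p : ℤ) + a : ℤ)) ++
        [4 * (WW p : ℤ) + (2 * (p.1.sum : ℕ) - p.2), 4 * (WW p : ℤ) + ((p.1.sum : ℕ) + p.2)]) ++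
        List.replicate (p.1.length + 16) (4 * (WW p : ℤ)) ++
        List.replicate 16 (5 * (WW p : ℤ)) := by
  have hp2 := hp.2
  unfold ecInst wts
  rw [List.map_map]
  have h1 : ((fun a : ℕ => (a : ℤ) - 1) ∘ fun x => x + 1) = fun a : ℕ => (a : ℤ) := by
    funext x; simp
  rw [h1]
  simp only [List.map_append, List.map_map, List.map_cons, List.map_nil, List.map_replicate]
  have h2 : ((2 * p.1.sum - p.2 : ℕ) : ℤ) = 2 * (p.1.sum : ℕ) - p.2 := by
    rw [Nat.cast_sub (by omega)]; push_cast; ring
  have h3 : ((fun a : ℕ => (a : ℤ)) ∘ fun a => 4 * WW p + a) =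
      fun a : ℕ => (4 * (WW p : ℤ) + a : ℤ) := by
    funext x; simp
  rw [h3]
  simp only [Nat.cast_add, Nat.cast_mul, h2, Nat.cast_ofNat]

theorem TT_two (x y d : ℤ) : TT [x, y] d ↔ d = x + y ∨ d = x - y ∨ d = -x + y ∨ d = -x - y := by
  simp only [TT]
  omega

theorem s_sum : S_SUM := by
  intro p hp
  rw [TT_iff (ecInst p) (fun a : ℕ => (a : ℤ) - 1), wts_map p hp]
  have hW : WW p = 4 * p.1.sum + p.1.length + 100 := rfl
  have hp2 := hp.2
  have hpos : 0 < p.1.sum := by omega
  simp only [TT_append, TT_rep, TT_items, TT_two]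
  constructor
  · rintro ⟨s, hs, hsum⟩
    have hle := hs.length_le
    refine ⟨_, _, ⟨_, _, ⟨_, _, ⟨s, hs, rfl⟩, Or.inr (Or.inl rfl), rfl⟩,
      ⟨p.1.length + 8 - s.length, by omega, rfl⟩, rfl⟩, ⟨8, by omega, rfl⟩, ?_⟩
    have h1 : ((p.1.length + 8 - s.length : ℕ) : ℤ) = p.1.length + 8 - s.length := by
      rw [Nat.cast_sub (by omega)]; push_cast; ring
    rw [h1, hsum]
    simp only [Nat.cast_add, Nat.cast_ofNat]
    ring
  · rintro ⟨d1, d2, ⟨d3, d4, ⟨d5, d6, ⟨s, hs, h5⟩, h6, rfl⟩, ⟨j, hj, rfl⟩, rfl⟩, ⟨k, hk, rfl⟩, h0⟩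
    obtain ⟨r, hr, hrs⟩ := sublist_compl _ _ hs
    have hss : s.sum ≤ p.1.sum := by omega
    have hrs' : ((r.sum : ℕ) : ℤ) + (s.sum : ℕ) = (p.1.sum : ℕ) := by exact_mod_cast hrs
    obtain ⟨A, hA⟩ : ∃ A, p.1.sum = A := ⟨_, rfl⟩
    obtain ⟨W, hWW⟩ : ∃ W, WW p = W := ⟨_, rfl⟩
    obtain ⟨S, hS⟩ : ∃ S, s.sum = S := ⟨_, rfl⟩
    obtain ⟨R, hR⟩ : ∃ R, r.sum = R := ⟨_, rfl⟩
    rw [hA] at hW hp2 hpos hrs hss hrs' h5 h6
    rw [hWW] at hW h5 h6 h0
    rw [hS] at hrs hss hrs' h5
    rw [hR] at hrs hrs'
    -- the small part is a multiple of `W`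
    have key : ∀ (z : ℤ) (q : ℤ), z = W * q → |z| < W → z = 0 := by
      intro z q h1 h2
      exact Int.eq_zero_of_abs_lt_dvd ⟨q, h1⟩ h2
    have hWz : (4 * A : ℤ) < W := by omega
    rcases h6 with h6 | h6 | h6 | h6
    · exfalso
      have h7 := key (2 * S - A + 3 * A)
        (-(4 * (2 * s.length - p.1.length) + 8 + 4 * (2 * j - (p.1.length + 16 : ℕ)) +
          5 * (2 * k - (16 : ℕ)))) (by
          rw [h5, h6] at h0
          linear_combination h0) (by rw [abs_lt]; constructor <;> omega)
      omega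
    · have h7 := key (2 * S - A + (A - 2 * p.2))
        (-(4 * (2 * s.length - p.1.length) + 4 * (2 * j - (p.1.length + 16 : ℕ)) +
          5 * (2 * k - (16 : ℕ)))) (by
          rw [h5, h6] at h0
          linear_combination h0) (by rw [abs_lt]; constructor <;> omega)
      exact ⟨s, hs, by rw [hS]; omega⟩
    · have h7 := key (2 * S - A - (A - 2 * p.2))
        (-(4 * (2 * s.length - p.1.length) + 4 * (2 * j - (p.1.length + 16 : ℕ)) +
          5 * (2 * k - (16 : ℕ)))) (by
          rw [h5, h6] at h0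
          linear_combination h0) (by rw [abs_lt]; constructor <;> omega)
      exact ⟨r, hr, by rw [hR]; omega⟩
    · exfalso
      have h7 := key (2 * S - A - 3 * A)
        (-(4 * (2 * s.length - p.1.length) - 8 + 4 * (2 * j - (p.1.length + 16 : ℕ)) +
          5 * (2 * k - (16 : ℕ)))) (by
          rw [h5, h6] at h0
          linear_combination h0) (by rw [abs_lt]; constructor <;> omega)
      omega

end Pool.Agent.Q206.EC
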