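import Pool.Agent.Q206.EC.Stm

/-!
# EC-THIRD: the other colours
-/

set_option autoImplicit false

namespace Pool.Agent.Q206.EC

open Finset

theorem s_third : S_THIRD := by
  intro hloc ι _ _ m Lf x y K lo hi hL hxy hB g c d hC T' h hv hg e hec hed
  have loc := fun i => hloc ι m Lf hL i
  -- pointwise
  have key : ∀ i, (fc m Lf i (h i) e : ℤ) + (fc m Lf i (g i) c + fc m Lf i (g i) d) ≤
      (m i + 1) + (if i ∈ T' then ((m i : ℤ) + 1) else 0) := by
    intro i
    by_cases hcd : ({x i, y i} : Finset ℕ) = {c, d}
    · -- both centres in `{c, d}`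
      have hx : ∀ z, (z = x i ∨ z = y i) → (z = c ∨ z = d) := by
        intro z hz
        have : z ∈ ({x i, y i} : Finset ℕ) := by
          rcases hz with rfl | rfl <;> simp
        rw [hcd] at this
        simpa using this
      have := (loc i).2.2.2.2.2.1 c d e (h i) (g i) hC.ne hec.symm hed.symm (hx _ (hv i))
        (hx _ (hC.val i))
      split_ifs <;> omega
    · by_cases hT : i ∈ T'
      · rw [if_pos hT]
        have h1 := (loc i).2.1 (g i) c d hC.ne
        have h2 := (loc i).2.1 (h i) e c hec
        omega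
      · rw [if_neg hT, hg i hcd hT]
        have h1 := (loc i).1 (g i) c d e hC.ne hec.symm hed.symm
        omega
  have hs := Finset.sum_le_sum fun i (_ : i ∈ (univ : Finset ι)) => key i
  simp only [Finset.sum_add_distrib] at hs
  rw [Finset.sum_ite_mem] at hs
  simp only [univ_inter] at hs
  have ht := hB.total
  have htight := hC.tight
  unfold forced at *

  have h1 : (∑ i, ((m i : ℤ) + 1)) = 2 * K := by exact_mod_cast ht
  have h2 : ((2 * K + 2 : ℕ) : ℤ) ≤ ((∑ i, fc m Lf i (g i) c + ∑ i, fc m Lf i (g i) d + hi : ℕ) : ℤ) := by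
    exact_mod_cast htight
  push_cast at h2
  rw [Finset.sum_add_distrib] at h1
  zify
  rw [Finset.sum_add_distrib]
  simp only [Finset.sum_add_distrib] at hs ⊢
  linarith

end Pool.Agent.Q206.EC
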