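import Pool.Agent.Q206.EC.Loc
import Pool.Agent.Q206.EC.Third
import Pool.Agent.Q206.EC.Num
import Pool.Agent.Q206.EC.Sum
import Pool.Agent.Q206.EC.Eq
import Pool.Agent.Q206.EC.PolyT
import Pool.Agent.Q206.EC.JFew
import Pool.Agent.Q206.EC.JMany
import Pool.Agent.Q206.EC.JMin
import Pool.Agent.Q130.EC.Hall
import Pool.Agent.Q130.EC.Cut

/-!
# Equitable 2-choosability of disjoint unions of stars is NP-hard
-/

set_option autoImplicit false

namespace Pool.Agent.Q206.EC

open Finset Pool.Agent.NPC Pool.Agent.NPC.R671.SS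

theorem main_iff (p : List ℕ × ℕ) (hp : Nice p) :
    SubsetSum p ↔ EquitablyChoosable (Stars (ecInst p)) 2 := by
  obtain ⟨K, lo, hi, W, hB, hone, I4, I5, hd, hu, h4, h4s, h5, c4, c5⟩ := s_num p hp
  constructor
  · intro hss
    obtain ⟨P, hP⟩ := (s_sum p hp).1 hss
    intro L hL
    have hx : ∀ i : Fin (ecInst p).length, ∃ a b, a ≠ b ∧ L ⟨i, none⟩ = {a, b} :=
      fun i => Finset.card_eq_two.1 (hL _)
    choose x y hxy hLx using hx
    have hgK : ∃ g, Val x y g ∧ ∀ c, forced (fun i => (ecInst p).get i)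
        (fun i j => L ⟨i, some j⟩) g c ≤ K := by
      by_contra hno
      obtain ⟨g, c, d, hC⟩ := min_main s_loc _ (fun i => (ecInst p).get i)
        (fun i j => L ⟨i, some j⟩) x y K lo hi (fun i v => hL _) hxy hB hno
      by_cases hT : 4 ≤ (univ.filter (fun i => ({x i, y i} : Finset ℕ) ≠ {c, d})).card
      · exact hno (t_MANY s_loc s_third _ _ _ x y K lo hi (fun i v => hL _) hxy hB g c d hC
          _ (fun i => by simp) hT)
      · obtain ⟨T, hTd⟩ : ∃ T, T = univ.filter (fun i => ({x i, y i} : Finset ℕ) ≠ {c, d}) :=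
          ⟨_, rfl⟩
        have hTm : ∀ i, i ∈ T ↔ ({x i, y i} : Finset ℕ) ≠ {c, d} := by
          intro i; rw [hTd]; simp
        rw [← hTd] at hT
        rcases T.eq_empty_or_nonempty with h0 | h0
        · refine hno (t_FEW s_loc s_third _ _ _ x y K lo hi (fun i v => hL _) hxy hB g c d hC
            T P hTm (by omega) (by rw [h0]; exact Finset.disjoint_empty_right _) ?_)
          rw [h0]
          have : (∅ : Finset (Fin (ecInst p).length))ᶜ \ P = Pᶜ := by ext; simp
          rw [this, hP]
          simp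
        · have hw : ∀ i : Fin (ecInst p).length, (((ecInst p).get i - 1 : ℕ) : ℤ) =
              ((ecInst p).get i : ℤ) - 1 := by
            intro i
            have := hone i
            rw [Nat.cast_sub this]; simp
          obtain ⟨R, hR, hR2⟩ := Pool.Agent.Q130.EC.cut _ (fun i => (ecInst p).get i - 1) W I4 I5 T hd hu h4 h4s h5
            c4 c5 h0 (by omega)
          refine hno (t_FEW s_loc s_third _ _ _ x y K lo hi (fun i v => hL _) hxy hB g c d hC
            T R hTm (by omega) hR ?_)
          simp only [hw] at hR2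
          refine hR2.trans (le_of_eq ?_)
          refine Finset.sum_congr rfl fun i _ => ?_
          ring
    obtain ⟨g, hg, hgc⟩ := hgK
    have hgL : ∀ i, g i ∈ L ⟨i, none⟩ := by
      intro i
      rw [hLx i]
      simpa using hg i
    obtain ⟨f, hf, hfa, hfc⟩ := Pool.Agent.Q130.EC.hall (ecInst p) K L g hL hgL hB.total hgc
    refine ⟨f, hf, hfa, fun c => ?_⟩
    rw [card_V, hB.total, ceil_two]
    exact hfc c
  · intro h
    exact (s_sum p hp).2 (s_eq (ecInst p) K hB.total h)

theorem main : HardPr (fun l : List ℕ => ∀ m ∈ l, 1 ≤ m)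
    (fun l : List ℕ => EquitablyChoosable (Stars l) 2) :=
  hardPr_SubsetSum.trans s_poly (fun p _ => by
    intro m hm
    unfold ecInst at hm
    rw [List.mem_map] at hm
    obtain ⟨a, -, rfl⟩ := hm
    omega) (fun p hp => main_iff p hp)

end Pool.Agent.Q206.EC
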