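import Pool.Agent.Q206.EC.Defs
import Pool.Agent.H671R2.SubsetSum

/-!
# Equitable 2-choosability of disjoint unions of stars is NP-hard: statements of the lemmas

The reduction is from subset sum. The stars have `w + 1` leaves, where `w` runs through numbers
`4 W + a` (`a` small) and `5 W`. The graph is equitably 2-choosable if and only if the numbers `w`
can be divided into two parts with equal sums. For lists all equal to `{0, 1}` this is clear.
Otherwise take a colouring of the centres for which the largest number of vertices forced to have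
one colour is as small as possible.
-/

set_option autoImplicit false

namespace Pool.Agent.Q206.EC

open Finset Pool.Agent.NPC Pool.Agent.NPC.R671.SS

/-- **EC-HALL.** Let `V` be the vertex set, `|V| = ∑ (m_i + 1) = 2 K`. Colour the centres with `g`;
a leaf with the list `{g i, c}` has only the colour `c` left, the other leaves have two colours left.
Hall's theorem for the graph between the vertices and `colours × Fin K` (each vertex joined to its
remaining colours, all `K` copies): a nonempty set `A` of vertices with exactly one colour `c` in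
its neighbourhood has at most `forced g c ≤ K` elements; with at least two colours the neighbourhood
has at least `2 K ≥ |A|` elements (`Finset.all_card_le_biUnion_card_iff_exists_injective`). The
injection gives the colouring with at most `K` vertices of every colour. -/
def S_HALL : Prop := ∀ (l : List ℕ) (K : ℕ) (L : ((i : Fin l.length) × Option (Fin (l.get i))) →
    Finset ℕ) (g : Fin l.length → ℕ), (∀ v, (L v).card = 2) → (∀ i, g i ∈ L ⟨i, none⟩) →
  ∑ i : Fin l.length, (l.get i + 1) = 2 * K →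
  (∀ c, forced (fun i => l.get i) (fun i j => L ⟨i, some j⟩) g c ≤ K) →
  ∃ f : ((i : Fin l.length) × Option (Fin (l.get i))) → ℕ, (∀ v, f v ∈ L v) ∧
    (∀ u v, (Stars l).Adj u v → f u ≠ f v) ∧ ∀ c, Nat.card {v // f v = c} ≤ K

/-- **EC-LOC.** Facts about one star with `m` leaves with lists of two colours. All inequalities
count disjoint sets of vertices of the star (the centre is counted where `if g = c then 1`; the
leaves with different lists `{a, b}` are disjoint, lists `{a, a}` do not exist).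
(1) `g`, three different colours `c, d, e`: the counted leaves have the lists `{g, c}, {g, d}, {g, e}`.
(2) two colours, one centre. (3) one colour, two centres `x ≠ y`: lists `{x, c}`, `{y, c}`.
(4) centres `{x, y} ≠ {c, d}`: the lists `{x, c}, {x, d}, {y, c}, {y, d}` are different (unless one
of the four terms is the centre).
(5) `{x, y} ≠ {c, d}`: the leaves with the list `{y, d}` are not among those with the lists `{x, c}`,
`{x, d}` (`{y, d} = {x, c}` would give `y = c`, `x = d`).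
(6) centres from `{c, d}`: the leaves with the list `{c, e}` or `{d, e}`, `e ≠ c, d`, have not the
list `{c, d}`. (7) trivial. -/
def S_LOC : Prop := ∀ (ι : Type) [Fintype ι] [DecidableEq ι] (m : ι → ℕ)
    (Lf : (i : ι) → Fin (m i) → Finset ℕ), (∀ i v, (Lf i v).card = 2) → ∀ i : ι,
  (∀ g c d e, c ≠ d → c ≠ e → d ≠ e → fc m Lf i g c + fc m Lf i g d + fc m Lf i g e ≤ m i + 1) ∧
  (∀ g c d, c ≠ d → fc m Lf i g c + fc m Lf i g d ≤ m i + 1) ∧
  (∀ x y c, x ≠ y → fc m Lf i x c + fc m Lf i y c ≤ m i + 1) ∧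
  (∀ x y c d, x ≠ y → c ≠ d → ({x, y} : Finset ℕ) ≠ {c, d} →
    fc m Lf i x c + fc m Lf i x d + (fc m Lf i y c + fc m Lf i y d) ≤ m i + 1) ∧
  (∀ x y c d, x ≠ y → c ≠ d → ({x, y} : Finset ℕ) ≠ {c, d} →
    fc m Lf i y d ≤ 1 ∨ fc m Lf i y d + (fc m Lf i x c + fc m Lf i x d) ≤ m i + 1) ∧
  (∀ c d e h h', c ≠ d → c ≠ e → d ≠ e → (h = c ∨ h = d) → (h' = c ∨ h' = d) →
    fc m Lf i h e + (fc m Lf i h' c + fc m Lf i h' d) ≤ m i + 1) ∧
  (∀ c d, c ≠ d → fc m Lf i c c = 1 ∧ fc m Lf i d d = 1 ∧ fc m Lf i c d = fc m Lf i d c ∧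
    fc m Lf i c d ≤ m i)

/-- **EC-MIN.** (Uses `S_LOC`.) Suppose no `g` with `Val x y g` has all `forced g c ≤ K`. Let
`M g = max_c forced g c` (a maximum over the finitely many colours in the lists; all other colours
are forced `0` times), and let `g` be a valid colouring of the centres with `M g` minimal,
`M = M g ≥ K + 1`, `forced g c = M`. Since `∑_c forced g c ≤ 2 K` ((1) of `S_LOC` for three colours is
enough), all other colours are forced `< K` times. By (3) there is a star `j` with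
`fc j (g j) c > fc j (g' j) c`, `g' j` the other colour of the centre (otherwise
`forced g c ≤ ∑ (m_i + 1) / 2 = K`). Change `g` at `j` only: by minimality some colour `d` has
`forced g' d ≥ M`, and `d ≠ c`. So `forced g d ≥ M - fc j (g' j) d ≥ M - (m_j + 1) ≥ M - hi`, which
gives `tight`: `forced g c + forced g d ≥ 2 M - hi`. Put
`E = 2 K - forced g c - forced g d ≤ hi - 2` and `e_i = m_i + 1 - fc i (g i) c - fc i (g i) d ≥ 0`, so
`∑ e_i = E`. `light`: let `{x i, y i} ≠ {c, d}`, `a = g i` and `b` the other one of `x i, y i`. If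
`fc i a c ≤ fc i b c` then, by (5) (for `{d, c}`), `fc i b c ≤ 1` or `fc i b c ≤ e_i`, done. If
`fc i a c > fc i b c`, change `g` at `i` only; some colour `d' ≠ c` has `forced g' d' ≥ M`. If `d' ≠ d`
then `forced g d' ≤ E` by (1), so `forced g' d' ≤ E + hi < 2 hi ≤ K`, a contradiction. If `d' = d`:
`forced g d = 2 K - E - M` and `forced g d - fc i a d + fc i b d ≥ M` give
`fc i b d ≥ 2 + E + fc i a d ≥ 2 + e_i`, a contradiction to (5). -/
def S_MIN : Prop := S_LOC → ∀ (ι : Type) [Fintype ι] [DecidableEq ι] (m : ι → ℕ)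
    (Lf : (i : ι) → Fin (m i) → Finset ℕ) (x y : ι → ℕ) (K lo hi : ℕ), (∀ i v, (Lf i v).card = 2) →
  (∀ i, x i ≠ y i) → Big m K lo hi → (¬ ∃ g, Val x y g ∧ ∀ c, forced m Lf g c ≤ K) →
  ∃ g c d, Crit m Lf x y K hi g c d

/-- **EC-THIRD.** (Uses `S_LOC`.) Let `T'` be a set of stars, and let `h` be valid and equal to `g` at
all stars with `{x i, y i} ≠ {c, d}` which are not in `T'`. For `e ≠ c, d` and
`e_i = m_i + 1 - fc i (g i) c - fc i (g i) d`: `fc i (h i) e ≤ e_i` if `{x i, y i} = {c, d}` (by (6),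
for `h' = g i`) or `h i = g i` (by (1)), and `fc i (h i) e ≤ m_i + 1` in any case. Sum, and use
`∑ e_i ≤ hi - 2` (`tight`). -/
def S_THIRD : Prop := S_LOC → ∀ (ι : Type) [Fintype ι] [DecidableEq ι] (m : ι → ℕ)
    (Lf : (i : ι) → Fin (m i) → Finset ℕ) (x y : ι → ℕ) (K lo hi : ℕ), (∀ i v, (Lf i v).card = 2) →
  (∀ i, x i ≠ y i) → Big m K lo hi → ∀ g c d, Crit m Lf x y K hi g c d → ∀ (T' : Finset ι)
    (h : ι → ℕ), Val x y h → (∀ i, ({x i, y i} : Finset ℕ) ≠ {c, d} → i ∉ T' → h i = g i) →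
    ∀ e, e ≠ c → e ≠ d → forced m Lf h e + 2 ≤ hi + ∑ i ∈ T', (m i + 1)

/-- **EC-FEW.** (Uses `S_LOC`, `S_THIRD`.) The case of few stars whose centre does not have the list
`{c, d}`. Let `T = {i | {x i, y i} ≠ {c, d}}`, `|T| ≤ 3`, and let `R` be disjoint from `T` with
`2 |∑_R (m_i - 1) - ∑_{Tᶜ \ R} (m_i - 1)| ≤ ∑_T (m_i + 1)` (for `T = ∅`: equality of the two sums).
For `i ∈ T` let `h i` be the one of `x i, y i` with the smaller `fc i · c + fc i · d`, so
`2 (fc i (h i) c + fc i (h i) d) ≤ m_i + 1` by (4). Put `A = ∑_T fc i (h i) c`,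
`B = ∑_T fc i (h i) d`, `δ = ∑_R (m_i - 1) - ∑_{Tᶜ \ R} (m_i - 1)`; by exchanging `R` and `Tᶜ \ R` we
may assume `δ ≥ 0` if `A ≤ B` and `δ ≤ 0` if `A > B`. Let `h i = d` for `i ∈ R` and `h i = c` for the
other `i ∉ T`. By (7) the stars `i ∉ T` contribute at most `∑_R m_i + |Tᶜ \ R| = (s + δ) / 2` to
`forced h c` and at most `|R| + ∑_{Tᶜ \ R} m_i = (s - δ) / 2` to `forced h d`, `s = ∑_{Tᶜ} (m_i + 1)`.
As `4 min(A, B) ≤ t`, `2 max (A, B) ≤ t`, `2 |δ| ≤ t` for `t = ∑_T (m_i + 1)`, and `s + t = 2 K`, both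
are at most `K`. The other colours: `forced h e ≤ hi + 3 hi ≤ K` by `S_THIRD` with `T' = T`. -/
def S_FEW : Prop := S_LOC → S_THIRD → ∀ (ι : Type) [Fintype ι] [DecidableEq ι] (m : ι → ℕ)
    (Lf : (i : ι) → Fin (m i) → Finset ℕ) (x y : ι → ℕ) (K lo hi : ℕ), (∀ i v, (Lf i v).card = 2) →
  (∀ i, x i ≠ y i) → Big m K lo hi → ∀ g c d, Crit m Lf x y K hi g c d → ∀ (T R : Finset ι),
    (∀ i, i ∈ T ↔ ({x i, y i} : Finset ℕ) ≠ {c, d}) → T.card ≤ 3 → Disjoint R T →
    2 * |∑ i ∈ R, ((m i : ℤ) - 1) - ∑ i ∈ Tᶜ \ R, ((m i : ℤ) - 1)| ≤ ∑ i ∈ T, ((m i : ℤ) + 1) →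
    ∃ h, Val x y h ∧ ∀ e, forced m Lf h e ≤ K

/-- **EC-MANY.** (Uses `S_LOC`, `S_THIRD`.) The case of at least four stars whose centre does not have
the list `{c, d}`: let `T'` be a set of four of them. For `i ∈ T'` let `h i` be the one of
`x i, y i` with the smaller `fc i · c + fc i · d`, so `2 (fc i (h i) c + fc i (h i) d) ≤ m_i + 1` by
(4); `h i = g i` for all other `i`. Then
`forced h c + forced h d ≤ 2 K - ∑_{T'} (m_i + 1) / 2 ≤ 2 K - 2 lo`. By `light`
(`fc i (g i) c ≤ e_i + 1`, `∑ e_i ≤ hi - 2`): `forced h c ≥ forced g c - ∑_{T'} fc i (g i) c ≥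
K + 1 - (hi - 2) - 4 = K - hi - 1`, so `forced h d ≤ K - 2 lo + hi + 1 ≤ K`. If `forced h c ≤ K` we are
done (other colours: `S_THIRD`, at most `hi + 4 hi ≤ K`). Otherwise let
`Sd = {i | {x i, y i} = {c, d}, g i = d}` and change `h` from `d` to `c` at the elements of a subset
`R` of `Sd`; the change at one star moves `fc i d c - 1 ≤ m_i - 1` (possibly `-1`) from `c` to `d`,
by (7), and keeps the sum. For `R = Sd`: `forced h c ≤ |ι| + (hi - 2) + 4 + 4 hi - 4 ≤ K` (stars with
list `{c, d}` contribute `1`, the others outside `T'` at most `e_i + 1`, the ones in `T'` at most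
`m_i + 1`; use `big`). Take `R` with `forced h_R c ≤ K` and `|R|` minimal; `R ≠ ∅`; removing one
element `j` gives `forced ≥ K + 1`, so `forced h_R c ≥ K + 1 - (m_j - 1) ≥ K - hi` and
`forced h_R d ≤ 2 K - 2 lo - (K - hi) ≤ K`. The other colours: `S_THIRD` for `h_R`. -/
def S_MANY : Prop := S_LOC → S_THIRD → ∀ (ι : Type) [Fintype ι] [DecidableEq ι] (m : ι → ℕ)
    (Lf : (i : ι) → Fin (m i) → Finset ℕ) (x y : ι → ℕ) (K lo hi : ℕ), (∀ i v, (Lf i v).card = 2) →
  (∀ i, x i ≠ y i) → Big m K lo hi → ∀ g c d, Crit m Lf x y K hi g c d → ∀ (T : Finset ι),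
    (∀ i, i ∈ T ↔ ({x i, y i} : Finset ℕ) ≠ {c, d}) → 4 ≤ T.card →
    ∃ h, Val x y h ∧ ∀ e, forced m Lf h e ≤ K

/-- **EC-CUT.** Let `k = |I4 \ T| ≥ 5` and `l = |I5 \ T| ≥ 5`. There are integers `u ≡ k`, `v ≡ l`
modulo 2 with `|u| ≤ 5`, `|v| ≤ 4`, `|4 u + 5 v| ≤ 1`: `(0, 0)`, `(5, -4)`, `(4, -3)`, `(-1, 1)` for
(`k`, `l`) = (even, even), (odd, even), (even, odd), (odd, odd). Let `R` consist of `(k + u) / 2`
elements of `I4 \ T` and `(l + v) / 2` elements of `I5 \ T`. The difference of the two sums is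
`W (4 u + 5 v)` plus the difference of the sums of the numbers `w i - 4 W`, `i ∈ I4 \ T`, hence at
most `2 W` in absolute value, and `∑_T (w i + 2) ≥ 4 W + 2`. -/
def S_CUT : Prop := ∀ (ι : Type) [Fintype ι] [DecidableEq ι] (w : ι → ℕ) (W : ℕ)
    (I4 I5 T : Finset ι), Disjoint I4 I5 → I4 ∪ I5 = univ → (∀ i ∈ I4, 4 * W ≤ w i) →
  ∑ i ∈ I4, (w i - 4 * W) ≤ W → (∀ i ∈ I5, w i = 5 * W) → 8 ≤ I4.card → 8 ≤ I5.card →
  T.Nonempty → T.card ≤ 3 → ∃ R : Finset ι, Disjoint R T ∧
    2 * |∑ i ∈ R, (w i : ℤ) - ∑ i ∈ Tᶜ \ R, (w i : ℤ)| ≤ ∑ i ∈ T, ((w i : ℤ) + 2)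

/-- the number `W` of the instance -/
def WW (p : List ℕ × ℕ) : ℕ := 4 * p.1.sum + p.1.length + 100

/-- the numbers `w` of the instance: `4 W + a` for the items `a`, then `4 W + (2 A - t)` and
`4 W + (A + t)`, then `n + 16` times `4 W`, then 16 times `5 W` -/
def wts (p : List ℕ × ℕ) : List ℕ :=
  p.1.map (fun a => 4 * WW p + a) ++ [4 * WW p + (2 * p.1.sum - p.2), 4 * WW p + (p.1.sum + p.2)] ++
    List.replicate (p.1.length + 16) (4 * WW p) ++ List.replicate 16 (5 * WW p)

/-- the instance: the stars have `w + 1` leaves -/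
def ecInst (p : List ℕ × ℕ) : List ℕ := (wts p).map (· + 1)

/-- **EC-SUM.** Correctness of the numbers. `A = ∑ a > t > 0`, `n` items, total
`W (8 n + 152) + 4 A` with `W > 4 A`. If `s` is a sublist of the items with sum `t`, then the items
of `s`, the number `4 W + (2 A - t)`, `n + 8 - |s|` of the numbers `4 W` and 8 numbers `5 W` have the
sum `W (4 n + 76) + 2 A`. Conversely, a subset `P` with this sum has, modulo `W` (all the small parts
together are at most `4 A < W`), the small parts sum `2 A`; so it contains exactly one of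
`4 W + (2 A - t)`, `4 W + (A + t)` (both would give `≥ 3 A`, none at most `A`), and the items in `P`
resp. not in `P` have the sum `t`. (`Nice p` says: all items are positive and less than `t = p.2`,
and `t` is less than the sum of the items.) -/
def S_SUM : Prop := ∀ p : List ℕ × ℕ, Nice p → (SubsetSum p ↔
  ∃ P : Finset (Fin (ecInst p).length), ∑ i ∈ P, ((ecInst p).get i - 1 : ℤ) =
    ∑ i ∈ Pᶜ, ((ecInst p).get i - 1 : ℤ))

/-- **EC-NUM.** The numerical assumptions hold with `lo = 4 W + 2`, `hi = 5 W + 2` and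
`2 K = (8 n + 152) W + 4 A + 2 (2 n + 34)` (`m_i + 1 = w_i + 2`; there are `2 n + 34` stars), so
`K ≥ 76 W + 2 n + 34 ≥ 5 hi + (2 n + 34)`; and the index set is divided into `I4` (the first
`2 n + 18` positions) and `I5` (the last 16 positions) as in `S_CUT` for `w i = m i - 1`. -/
def S_NUM : Prop := ∀ p : List ℕ × ℕ, Nice p → ∃ K lo hi W : ℕ,
  Big (fun i : Fin (ecInst p).length => (ecInst p).get i) K lo hi ∧
  (∀ i : Fin (ecInst p).length, 1 ≤ (ecInst p).get i) ∧
  ∃ I4 I5 : Finset (Fin (ecInst p).length), Disjoint I4 I5 ∧ I4 ∪ I5 = univ ∧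
    (∀ i ∈ I4, 4 * W ≤ (ecInst p).get i - 1) ∧ ∑ i ∈ I4, ((ecInst p).get i - 1 - 4 * W) ≤ W ∧
    (∀ i ∈ I5, (ecInst p).get i - 1 = 5 * W) ∧ 8 ≤ I4.card ∧ 8 ≤ I5.card

/-- **EC-EQ.** Converse direction. Let `∑ (m_i + 1) = 2 K` and let the graph be equitably
2-choosable. Take all lists equal to `{0, 1}`. In the colouring `f` every star has one colour at the
centre and the other one at the leaves. The colours `0` and `1` are used at most `⌈2 K / 2⌉ = K` times,
so exactly `K` times each. With `P` = the stars with centre of colour `1`: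
`∑_P m_i + |Pᶜ| = K = ∑_{Pᶜ} m_i + |P|`, hence the equality of sums. -/
def S_EQ : Prop := ∀ (l : List ℕ) (K : ℕ), ∑ i : Fin l.length, (l.get i + 1) = 2 * K →
  EquitablyChoosable (Stars l) 2 → ∃ P : Finset (Fin l.length),
    ∑ i ∈ P, (l.get i - 1 : ℤ) = ∑ i ∈ Pᶜ, (l.get i - 1 : ℤ)

/-- **EC-POLY.** Polynomial time of the reduction, with the library `Pool/Agent/NPC` and `fun_prop`
(see `Pool/Agent/H671R2/SubsetSum.lean`, `inst_poly`; the sum of a list of numbers is a fold, see the
similar proofs by grep for `.sum` in files importing `Pool.Agent.H671R2.PolyAuto`). -/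
def S_POLY : Prop := Poly ecInst

end Pool.Agent.Q206.EC
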